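import Mathlib

section

set_option autoImplicit false

/-!
Trigonometric polynomials: orthogonality relations and integrals over short intervals.
-/

namespace Pool.Agent.Lib.MP_53e230_an

open MeasureTheory Filter Topology Set intervalIntegral

/-- The character `e^{-2π i l x}`. -/
noncomputable def ch (l : ℤ) (x : ℝ) : ℂ := Complex.exp (-(2 * Real.pi * l * x : ℝ) * Complex.I)

lemma ch_continuous (l : ℤ) : Continuous (ch l) := by
  unfold ch
  fun_prop

lemma norm_ch (l : ℤ) (x : ℝ) : ‖ch l x‖ = 1 := by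
  unfold ch
  rw [← Complex.ofReal_neg]
  exact Complex.norm_exp_ofReal_mul_I _

lemma ch_add (l m : ℤ) (x : ℝ) : ch (l + m) x = ch l x * ch m x := by
  unfold ch
  rw [← Complex.exp_add]
  congr 1
  push_cast
  ring

lemma ch_add_right (l : ℤ) (x y : ℝ) : ch l (x + y) = ch l x * ch l y := by
  unfold ch
  rw [← Complex.exp_add]
  congr 1
  push_cast
  ring

lemma ch_int (l n : ℤ) : ch l n = 1 := by
  unfold ch
  rw [Complex.exp_eq_one_iff]
  refine ⟨-(l * n), ?_⟩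
  push_cast
  ring

lemma ch_zero (x : ℝ) : ch 0 x = 1 := by simp [ch]

lemma ch_zero_right (l : ℤ) : ch l 0 = 1 := by simp [ch]

lemma conj_ch (l : ℤ) (x : ℝ) : (starRingEnd ℂ) (ch l x) = ch (-l) x := by
  unfold ch
  rw [← Complex.exp_conj]
  congr 1
  rw [map_mul, Complex.conj_I, ← Complex.ofReal_neg, Complex.conj_ofReal]
  push_cast
  ring

lemma integral_ch (l : ℤ) : ∫ x in (0 : ℝ)..1, ch l x = if l = 0 then 1 else 0 := by
  split_ifs with h
  · subst h; simp [ch_zero]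
  · have hc : (-(2 * Real.pi * l : ℝ) : ℂ) * Complex.I ≠ 0 := by
      refine mul_ne_zero (neg_ne_zero.2 ?_) Complex.I_ne_zero
      have : (2 * Real.pi * l : ℝ) ≠ 0 := by
        have : (l : ℝ) ≠ 0 := by exact_mod_cast h
        positivity
      exact_mod_cast this
    have e : ∀ x : ℝ, ch l x = Complex.exp ((-(2 * Real.pi * l : ℝ) : ℂ) * Complex.I * x) := by
      intro x
      unfold ch
      congr 1
      push_cast
      ring
    simp only [e]
    rw [integral_exp_mul_complex hc]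
    have h1 : Complex.exp ((-(2 * Real.pi * l : ℝ) : ℂ) * Complex.I * (1 : ℝ)) = 1 := by
      rw [← e]
      have := ch_int l 1
      simpa using this
    rw [h1]
    simp

lemma norm_sq_sum_ch (T : Finset ℤ) (a : ℤ → ℂ) (x : ℝ) :
    ((‖∑ l ∈ T, a l * ch l x‖ ^ 2 : ℝ) : ℂ) =
      ∑ l ∈ T, ∑ m ∈ T, a l * (starRingEnd ℂ) (a m) * ch (l - m) x := by
  push_cast
  rw [← Complex.mul_conj', map_sum, Finset.sum_mul_sum]
  refine Finset.sum_congr rfl fun l _ => Finset.sum_congr rfl fun m _ => ?_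
  rw [map_mul, conj_ch, sub_eq_add_neg, ch_add]
  ring

/-- Parseval identity for trigonometric polynomials. -/
lemma integral_norm_sq_sum_ch (T : Finset ℤ) (a : ℤ → ℂ) :
    ∫ x in (0 : ℝ)..1, ‖∑ l ∈ T, a l * ch l x‖ ^ 2 = ∑ l ∈ T, ‖a l‖ ^ 2 := by
  have h : ((∫ x in (0 : ℝ)..1, ‖∑ l ∈ T, a l * ch l x‖ ^ 2 : ℝ) : ℂ) =
      ((∑ l ∈ T, ‖a l‖ ^ 2 : ℝ) : ℂ) := by
    rw [← intervalIntegral.integral_ofReal]
    simp only [norm_sq_sum_ch]
    rw [intervalIntegral.integral_finsetSum]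
    · push_cast
      refine Finset.sum_congr rfl fun l hl => ?_
      rw [intervalIntegral.integral_finsetSum]
      · simp only [intervalIntegral.integral_const_mul, integral_ch, sub_eq_zero]
        simp only [mul_ite, mul_one, mul_zero, Finset.sum_ite_eq, if_pos hl]
        exact Complex.mul_conj' _
      · intro m _
        exact (continuous_const.mul (ch_continuous _)).intervalIntegrable _ _
    · intro l _
      exact (continuous_finsetSum _ fun m _ =>
        continuous_const.mul (ch_continuous _)).intervalIntegrable _ _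
  exact_mod_cast h

/-- The trigonometric polynomial with coefficients `a` on `T`. -/
noncomputable def tp (T : Finset ℤ) (a : ℤ → ℂ) (x : ℝ) : ℂ := ∑ l ∈ T, a l * ch l x

lemma tp_continuous (T : Finset ℤ) (a : ℤ → ℂ) : Continuous (tp T a) :=
  continuous_finsetSum _ fun _ _ => continuous_const.mul (ch_continuous _)

lemma tp_periodic (T : Finset ℤ) (a : ℤ → ℂ) : Function.Periodic (tp T a) 1 := by
  intro x
  unfold tp
  refine Finset.sum_congr rfl fun l _ => ?_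
  rw [ch_add_right]
  have := ch_int l 1
  simp only [Int.cast_one] at this
  rw [this, mul_one]

/-- Integral of a nonnegative continuous `1`-periodic function along a rescaled interval. -/
lemma integral_comp_le {g : ℝ → ℝ} (hg : Continuous g) (hp : Function.Periodic g 1)
    (h0 : ∀ x, 0 ≤ g x) {y : ℝ} (hy : 0 < y) (x0 : ℝ) :
    ∫ τ in (0 : ℝ)..1, g (x0 + y * τ) ≤ (1 + 1 / y) * ∫ x in (0 : ℝ)..1, g x := by
  have h1 : ∫ τ in (0 : ℝ)..1, g (x0 + y * τ) = y⁻¹ * ∫ x in x0..x0 + y, g x := by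
    rw [intervalIntegral.integral_comp_add_mul g hy.ne' x0]
    simp
  obtain ⟨N, hN1, hN2⟩ : ∃ N : ℕ, y ≤ N ∧ (N : ℝ) ≤ y + 1 :=
    ⟨⌈y⌉₊, Nat.le_ceil y, (Nat.ceil_lt_add_one hy.le).le⟩
  have hint : ∀ a b, IntervalIntegrable g volume a b := fun a b => hg.intervalIntegrable a b
  have h2 : ∫ x in x0..x0 + y, g x ≤ ∫ x in x0..x0 + N, g x := by
    rw [← intervalIntegral.integral_add_adjacent_intervals (hint x0 (x0 + y))
      (hint (x0 + y) (x0 + N))]
    have : 0 ≤ ∫ x in (x0 + y)..x0 + N, g x :=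
      intervalIntegral.integral_nonneg (by linarith) fun x _ => h0 x
    linarith
  have h3 : ∫ x in x0..x0 + N, g x = N * ∫ x in (0 : ℝ)..1, g x := by
    have := hp.intervalIntegral_add_zsmul_eq (N : ℤ) x0 (fun a b => hint a b)
    simp only [zsmul_eq_mul, Int.cast_natCast, mul_one] at this
    rw [this, hp.intervalIntegral_add_eq x0 0, zero_add]
  have h4 : 0 ≤ ∫ x in (0 : ℝ)..1, g x :=
    intervalIntegral.integral_nonneg zero_le_one fun x _ => h0 x
  rw [h1]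
  calc y⁻¹ * ∫ x in x0..x0 + y, g x ≤ y⁻¹ * (N * ∫ x in (0 : ℝ)..1, g x) := by
        rw [← h3]; gcongr
    _ ≤ y⁻¹ * ((y + 1) * ∫ x in (0 : ℝ)..1, g x) := by gcongr
    _ = (1 + 1 / y) * ∫ x in (0 : ℝ)..1, g x := by field_simp

/-- `L²` bound for a trigonometric polynomial along a rescaled interval. -/
lemma integral_tp_sq_le (T : Finset ℤ) (a : ℤ → ℂ) {y : ℝ} (hy : 0 < y) (x0 : ℝ) :
    ∫ τ in (0 : ℝ)..1, ‖tp T a (x0 + y * τ)‖ ^ 2 ≤ (1 + 1 / y) * ∑ l ∈ T, ‖a l‖ ^ 2 := by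
  have := integral_comp_le (g := fun x => ‖tp T a x‖ ^ 2) ((tp_continuous T a).norm.pow 2)
    (fun x => by simp only [tp_periodic T a x]) (fun x => sq_nonneg _) hy x0
  rw [show (∫ x in (0 : ℝ)..1, ‖tp T a x‖ ^ 2) = ∑ l ∈ T, ‖a l‖ ^ 2 from
    integral_norm_sq_sum_ch T a] at this
  exact this

/-- `L¹` bound on `[0,δ]` for a trigonometric polynomial along a rescaled interval. -/
lemma integral_tp_le (T : Finset ℤ) (a : ℤ → ℂ) {y : ℝ} (hy : 0 < y) (x0 : ℝ) {δ : ℝ}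
    (hδ : 0 ≤ δ) (hδ1 : δ ≤ 1) :
    ∫ τ in (0 : ℝ)..δ, ‖tp T a (x0 + y * τ)‖ ≤
      √(δ * ((1 + 1 / y) * ∑ l ∈ T, ‖a l‖ ^ 2)) := by
  have hcont : Continuous fun τ : ℝ => ‖tp T a (x0 + y * τ)‖ :=
    ((tp_continuous T a).comp (by fun_prop)).norm
  have hcont2 : Continuous fun τ : ℝ => ‖tp T a (x0 + y * τ)‖ ^ 2 := hcont.pow 2
  have h1 : ∫ τ in (0 : ℝ)..δ, ‖tp T a (x0 + y * τ)‖ ^ 2 ≤
      ∫ τ in (0 : ℝ)..1, ‖tp T a (x0 + y * τ)‖ ^ 2 := by
    rw [← intervalIntegral.integral_add_adjacent_intervals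
      (hcont2.intervalIntegrable 0 δ) (hcont2.intervalIntegrable δ 1)]
    have : 0 ≤ ∫ x in δ..1, ‖tp T a (x0 + y * x)‖ ^ 2 :=
      intervalIntegral.integral_nonneg hδ1 fun x _ => sq_nonneg _
    linarith
  have h2 := h1.trans (integral_tp_sq_le T a hy x0)
  -- Cauchy-Schwarz
  have h3 : (∫ τ in (0 : ℝ)..δ, ‖tp T a (x0 + y * τ)‖) ^ 2 ≤
      δ * ∫ τ in (0 : ℝ)..δ, ‖tp T a (x0 + y * τ)‖ ^ 2 := by
    rcases hδ.eq_or_lt with h | h
    · subst h; simp
    · set I := ∫ τ in (0 : ℝ)..δ, ‖tp T a (x0 + y * τ)‖ with hI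
      have h4 : 0 ≤ ∫ τ in (0 : ℝ)..δ, (‖tp T a (x0 + y * τ)‖ - I / δ) ^ 2 :=
        intervalIntegral.integral_nonneg hδ fun x _ => sq_nonneg _
      have h5 : ∫ τ in (0 : ℝ)..δ, (‖tp T a (x0 + y * τ)‖ - I / δ) ^ 2 =
          (∫ τ in (0 : ℝ)..δ, ‖tp T a (x0 + y * τ)‖ ^ 2) - 2 * (I / δ) * I + δ * (I / δ) ^ 2 := by
        have : ∀ τ, (‖tp T a (x0 + y * τ)‖ - I / δ) ^ 2 =
            ‖tp T a (x0 + y * τ)‖ ^ 2 - 2 * (I / δ) * ‖tp T a (x0 + y * τ)‖ + (I / δ) ^ 2 :=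
          fun τ => by ring
        simp only [this]
        rw [intervalIntegral.integral_add, intervalIntegral.integral_sub,
          intervalIntegral.integral_const_mul, intervalIntegral.integral_const]
        · simp [hI]
        · exact hcont2.intervalIntegrable _ _
        · exact (hcont.const_mul _).intervalIntegrable _ _
        · exact (hcont2.sub (hcont.const_mul _)).intervalIntegrable _ _
        · exact continuous_const.intervalIntegrable _ _
      rw [h5] at h4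
      have h6 : 2 * (I / δ) * I - δ * (I / δ) ^ 2 = I ^ 2 / δ := by
        field_simp
        ring
      have h7 : I ^ 2 / δ ≤ ∫ τ in (0 : ℝ)..δ, ‖tp T a (x0 + y * τ)‖ ^ 2 := by linarith
      rw [div_le_iff₀ h] at h7
      linarith
  apply Real.le_sqrt_of_sq_le
  refine h3.trans ?_
  gcongr

end Pool.Agent.Lib.MP_53e230_an
end

section

set_option autoImplicit false

/-!
The Fourier side of a dyadic wavelet system generated by a Schwartz function.
-/

namespace Pool.Agent.Lib.MP_53e230_an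

open MeasureTheory Filter Topology Set
open scoped FourierTransform SchwartzMap

/-- The functions `2^{-j/2} e^{-2π i k 2^{-j} ξ} F(2^{-j} ξ)`. -/
noncomputable def eF (F : ℝ → ℂ) (j k : ℤ) (ξ : ℝ) : ℂ :=
  (((2 : ℝ) ^ (-(j : ℝ) / 2) : ℝ) : ℂ) * (ch k ((2 : ℝ) ^ (-j) * ξ) * F ((2 : ℝ) ^ (-j) * ξ))

/-- The dilation `x ↦ 2^j x` as a linear equivalence. -/
noncomputable def dil (j : ℤ) : ℝ ≃L[ℝ] ℝ :=
  ContinuousLinearEquiv.unitsEquivAut ℝ (Units.mk0 ((2 : ℝ) ^ j) (by positivity))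

/-- The dyadic dilates and translates as Schwartz functions. -/
noncomputable def sc (ψ : 𝓢(ℝ, ℂ)) (j k : ℤ) : 𝓢(ℝ, ℂ) :=
  (((2 : ℝ) ^ ((j : ℝ) / 2) : ℝ) : ℂ) •
    SchwartzMap.compCLMOfContinuousLinearEquiv ℂ (dil j) (SchwartzMap.compSubConstCLM ℂ (k : ℝ) ψ)

lemma sc_apply (ψ : 𝓢(ℝ, ℂ)) (j k : ℤ) (x : ℝ) :
    sc ψ j k x = (((2 : ℝ) ^ ((j : ℝ) / 2) : ℝ) : ℂ) * ψ ((2 : ℝ) ^ j * x - (k : ℝ)) := by
  simp [sc, dil, mul_comm]

lemma fourier_sc (ψ : 𝓢(ℝ, ℂ)) (j k : ℤ) (ξ : ℝ) :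
    𝓕 (fun x : ℝ => (((2 : ℝ) ^ ((j : ℝ) / 2) : ℝ) : ℂ) * ψ ((2 : ℝ) ^ j * x - (k : ℝ))) ξ =
      eF (𝓕 (fun x : ℝ => ψ x)) j k ξ := by
  have hpos : (0 : ℝ) < (2 : ℝ) ^ j := by positivity
  rw [Real.fourier_real_eq_integral_exp_smul]
  set G : ℝ → ℂ := fun y => Complex.exp (((-2 * Real.pi * ((2 : ℝ) ^ (-j) * (y + k)) * ξ : ℝ) : ℂ) *
    Complex.I) * ((((2 : ℝ) ^ ((j : ℝ) / 2) : ℝ) : ℂ) * ψ y) with hG
  have h1 : ∀ x : ℝ, Complex.exp (((-2 * Real.pi * x * ξ : ℝ) : ℂ) * Complex.I) •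
      ((((2 : ℝ) ^ ((j : ℝ) / 2) : ℝ) : ℂ) * ψ ((2 : ℝ) ^ j * x - (k : ℝ))) =
      G ((2 : ℝ) ^ j * x - (k : ℝ)) := by
    intro x
    simp only [hG, smul_eq_mul]
    congr 4
    rw [sub_add_cancel]
    have : (2 : ℝ) ^ (-j) * ((2 : ℝ) ^ j * x) = x := by
      rw [← mul_assoc, ← zpow_add₀ (two_ne_zero' ℝ)]
      simp
    rw [this]
  simp only [h1]
  have h2 : ∫ x : ℝ, G ((2 : ℝ) ^ j * x - (k : ℝ)) = |((2 : ℝ) ^ j)⁻¹| • ∫ y : ℝ, G (y - k) :=
    Measure.integral_comp_mul_left (fun y => G (y - k)) _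
  rw [h2, integral_sub_right_eq_self G, abs_of_pos (by positivity)]
  unfold eF
  rw [Real.fourier_real_eq_integral_exp_smul, ← integral_const_mul, ← integral_const_mul,
    ← integral_smul]
  refine integral_congr_ae (Eventually.of_forall fun y => ?_)
  simp only [hG, smul_eq_mul, Complex.real_smul]
  have h3 : ((((2 : ℝ) ^ j)⁻¹ : ℝ) : ℂ) * (((2 : ℝ) ^ ((j : ℝ) / 2) : ℝ) : ℂ) =
      (((2 : ℝ) ^ (-(j : ℝ) / 2) : ℝ) : ℂ) := by
    rw [← Complex.ofReal_mul]
    congr 1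
    rw [← Real.rpow_intCast, ← Real.rpow_neg (by norm_num), ← Real.rpow_add (by norm_num)]
    congr 1
    ring
  have h4 : Complex.exp (((-2 * Real.pi * ((2 : ℝ) ^ (-j) * (y + k)) * ξ : ℝ) : ℂ) *
      Complex.I) = ch k ((2 : ℝ) ^ (-j) * ξ) * Complex.exp (((-2 * Real.pi * y *
        ((2 : ℝ) ^ (-j) * ξ) : ℝ) : ℂ) * Complex.I) := by
    unfold ch
    rw [← Complex.exp_add]
    congr 1
    push_cast
    ring
  rw [← h3, h4]
  ring

lemma fourier_sc' (ψ : 𝓢(ℝ, ℂ)) (j k : ℤ) (ξ : ℝ) :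
    (𝓕 (sc ψ j k)) ξ = eF (𝓕 (fun x : ℝ => ψ x)) j k ξ := by
  rw [← fourier_sc, SchwartzMap.fourier_coe]
  have : (⇑(sc ψ j k) : ℝ → ℂ) = fun x : ℝ => (((2 : ℝ) ^ ((j : ℝ) / 2) : ℝ) : ℂ) *
      ψ ((2 : ℝ) ^ j * x - (k : ℝ)) := funext fun x => sc_apply ψ j k x
  rw [this]

/-- Plancherel for finite linear combinations of the dyadic system. -/
lemma plancherel_sum (ψ : 𝓢(ℝ, ℂ)) (c : ℤ × ℤ →₀ ℂ) :
    ∫ x : ℝ, ‖c.sum (fun p a => a * ((((2 : ℝ) ^ ((p.1 : ℝ) / 2) : ℝ) : ℂ) *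
      ψ ((2 : ℝ) ^ p.1 * x - (p.2 : ℝ))))‖ ^ 2 =
    ∫ ξ : ℝ, ‖c.sum (fun p a => a * eF (𝓕 (fun x : ℝ => ψ x)) p.1 p.2 ξ)‖ ^ 2 := by
  have h := SchwartzMap.integral_norm_sq_fourier (c.sum fun p a => a • sc ψ p.1 p.2)
  have h1 : ∀ x : ℝ, (c.sum fun p a => a • sc ψ p.1 p.2) x =
      c.sum (fun p a => a * ((((2 : ℝ) ^ ((p.1 : ℝ) / 2) : ℝ) : ℂ) *
      ψ ((2 : ℝ) ^ p.1 * x - (p.2 : ℝ)))) := by
    intro x
    simp only [Finsupp.sum, sum_apply, smul_apply, sc_apply, smul_eq_mul]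
  have h2 : ∀ ξ : ℝ, (𝓕 (c.sum fun p a => a • sc ψ p.1 p.2)) ξ =
      c.sum (fun p a => a * eF (𝓕 (fun x : ℝ => ψ x)) p.1 p.2 ξ) := by
    intro ξ
    have h3 : 𝓕 (c.sum fun p a => a • sc ψ p.1 p.2) = c.sum fun p a => a • 𝓕 (sc ψ p.1 p.2) := by
      change SchwartzMap.fourierTransformCLM ℂ _ = _
      simp only [Finsupp.sum, map_sum, map_smul]
      rfl
    rw [h3]
    simp only [Finsupp.sum, sum_apply, smul_apply, fourier_sc', smul_eq_mul]
  simp only [h1, h2] at h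
  exact h.symm

/-- Decay of the Fourier transform. -/
lemma exists_decay (G : 𝓢(ℝ, ℂ)) : ∃ M : ℝ, 0 < M ∧ (∀ x, ‖G x‖ ≤ M / (1 + |x|)) ∧
    (∀ x, ‖deriv G x‖ ≤ M / (1 + |x|)) := by
  obtain ⟨C1, h1⟩ : ∃ C, ∀ x, (1 + ‖x‖) * ‖G x‖ ≤ C := by
    obtain ⟨C, hC⟩ : ∃ C, ∀ x, (1 + ‖x‖) ^ 1 * ‖iteratedFDeriv ℝ 0 G x‖ ≤ C := ⟨_, fun x =>
      SchwartzMap.one_add_le_sup_seminorm_apply (𝕜 := ℂ) (m := (1, 0)) (k := 1) (n := 0)
      le_rfl le_rfl G x⟩
    exact ⟨C, fun x => by simpa using hC x⟩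
  obtain ⟨C2, h2⟩ : ∃ C, ∀ x, (1 + ‖x‖) * ‖deriv G x‖ ≤ C := by
    obtain ⟨C, hC⟩ : ∃ C, ∀ x, (1 + ‖x‖) ^ 1 * ‖iteratedFDeriv ℝ 1 G x‖ ≤ C := ⟨_, fun x =>
      SchwartzMap.one_add_le_sup_seminorm_apply (𝕜 := ℂ) (m := (1, 1)) (k := 1) (n := 1)
      le_rfl le_rfl G x⟩
    refine ⟨C, fun x => ?_⟩
    have := hC x
    rw [norm_iteratedFDeriv_eq_norm_iteratedDeriv] at this
    simpa using this
  have hp : ∀ x : ℝ, 0 < 1 + |x| := fun x => by positivity
  refine ⟨max (max C1 C2) 1, by positivity, fun x => ?_, fun x => ?_⟩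
  · rw [le_div_iff₀ (hp x), mul_comm]
    exact (h1 x).trans ((le_max_left _ _).trans (le_max_left _ _))
  · rw [le_div_iff₀ (hp x), mul_comm]
    exact (h2 x).trans ((le_max_right _ _).trans (le_max_left _ _))

end Pool.Agent.Lib.MP_53e230_an
end

section

set_option autoImplicit false

/-!
Fibers of the shift invariant space generated by the nonnegative scales: the lower Riesz bound in
each fiber and the Lipschitz dependence on the fiber parameter.
-/

namespace Pool.Agent.Lib.MP_53e230_an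

open MeasureTheory Filter Topology Set
open scoped FourierTransform SchwartzMap

/-- The properties of the Fourier transform of the wavelet that are used. -/
structure FData (F : ℝ → ℂ) (M : ℝ) : Prop where
  pos : 0 < M
  zero : ∀ x ≤ 0, F x = 0
  diff : Differentiable ℝ F
  decay : ∀ x, ‖F x‖ ≤ M / (1 + |x|)
  ddecay : ∀ x, ‖deriv F x‖ ≤ M / (1 + |x|)

lemma FData.lip {F : ℝ → ℂ} {M : ℝ} (h : FData F M) {a x y : ℝ} (ha : 0 ≤ a) (hx : a ≤ x)
    (hy : a ≤ y) : ‖F x - F y‖ ≤ M / (1 + a) * |x - y| := by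
  have := (convex_Ici a).norm_image_sub_le_of_norm_deriv_le (f := F) (C := M / (1 + a))
    (fun z _ => h.diff z) (fun z hz => (h.ddecay z).trans ?_) hy hx
  · simpa using this
  · have hz' : a ≤ z := hz
    have : a ≤ |z| := hz'.trans (le_abs_self z)
    have := h.pos
    gcongr

/-- Components of the fiber vectors. -/
noncomputable def wf (F : ℝ → ℂ) (j : ℕ) (r : ℤ) (t : ℝ) (k : ℤ) : ℂ :=
  (((2 : ℝ) ^ (-(j : ℝ) / 2) : ℝ) : ℂ) * (ch r ((k : ℝ) / 2 ^ j) * F (((k : ℝ) + t) / 2 ^ j))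

lemma eF_add_int (F : ℝ → ℂ) (j : ℕ) (r k : ℤ) (t : ℝ) :
    eF F (j : ℤ) r (t + k) = ch r (t / 2 ^ j) * wf F j r t k := by
  unfold eF wf
  have h1 : (2 : ℝ) ^ (-(j : ℤ)) * (t + k) = ((k : ℝ) + t) / 2 ^ j := by
    rw [zpow_neg, zpow_natCast]
    field_simp
    ring
  have h2 : ((k : ℝ) + t) / 2 ^ j = t / 2 ^ j + (k : ℝ) / 2 ^ j := by ring
  rw [h1, h2, ch_add_right]
  push_cast
  ring

lemma eF_mul_ch (F : ℝ → ℂ) (j : ℕ) (r l : ℤ) (ξ : ℝ) :
    eF F (j : ℤ) (r + 2 ^ j * l) ξ = eF F (j : ℤ) r ξ * ch l ξ := by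
  unfold eF
  have h1 : ch (2 ^ j * l) ((2 : ℝ) ^ (-(j : ℤ)) * ξ) = ch l ξ := by
    unfold ch
    congr 1
    have : (2 : ℝ) ^ (-(j : ℤ)) * 2 ^ j = 1 := by
      rw [zpow_neg, zpow_natCast, inv_mul_cancel₀ (by positivity)]
    have h2 : (2 * Real.pi * ((2 ^ j * l : ℤ) : ℝ) * ((2 : ℝ) ^ (-(j : ℤ)) * ξ) : ℝ) =
        2 * Real.pi * l * ξ := by
      push_cast
      calc _ = 2 * Real.pi * l * ξ * ((2 : ℝ) ^ (-(j : ℤ)) * 2 ^ j) := by ring
        _ = _ := by rw [this, mul_one]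
    rw [h2]
  rw [ch_add, h1]
  ring

/-- The index set of the nonnegative scales. -/
abbrev X : Type := (j : ℕ) × Fin (2 ^ j)

/-- The embedding `((j,r),l) ↦ (j, r + 2^j l)`. -/
def pidx (i : X × ℕ) : ℤ × ℤ := ((i.1.1 : ℤ), ((i.1.2 : ℕ) : ℤ) + 2 ^ i.1.1 * (i.2 : ℤ))

lemma pidx_injective : Function.Injective pidx := by
  rintro ⟨⟨j, r⟩, l⟩ ⟨⟨j', r'⟩, l'⟩ h
  simp only [pidx, Prod.mk.injEq, Nat.cast_inj] at h
  obtain ⟨h1, h2⟩ := h
  subst h1
  have hr := r.2
  have hr' := r'.2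
  have h2' : (r : ℕ) + 2 ^ j * l = (r' : ℕ) + 2 ^ j * l' := by exact_mod_cast h2
  have e1 : (r : ℕ) = r' := by
    have := congrArg (· % 2 ^ j) h2'
    simpa [Nat.add_mul_mod_self_left, Nat.mod_eq_of_lt hr, Nat.mod_eq_of_lt hr'] using this
  have e2 : l = l' := by
    rw [e1] at h2'
    have h3 : 2 ^ j * l = 2 ^ j * l' := by omega
    exact Nat.eq_of_mul_eq_mul_left (by positivity) h3
  subst e2
  have : r = r' := Fin.ext e1
  subst this
  rfl

/-- The lower Riesz bound for a finite family of distinct indices. -/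
lemma riesz_finset {F : ℝ → ℂ} {A : ℝ}
    (hR : ∀ c : ℤ × ℤ →₀ ℂ, A * c.sum (fun _ a => ‖a‖ ^ 2) ≤
      ∫ ξ : ℝ, ‖c.sum (fun p a => a * eF F p.1 p.2 ξ)‖ ^ 2)
    {ι : Type*} (p : ι → ℤ × ℤ) (hp : Function.Injective p) (S : Finset ι) (a : ι → ℂ) :
    A * ∑ i ∈ S, ‖a i‖ ^ 2 ≤ ∫ ξ : ℝ, ‖∑ i ∈ S, a i * eF F (p i).1 (p i).2 ξ‖ ^ 2 := by
  classical
  let c' : ι →₀ ℂ := Finsupp.onFinset S (fun i => if i ∈ S then a i else 0) (by
    intro i hi
    by_contra h
    simp [h] at hi)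
  have h := hR (Finsupp.mapDomain p c')
  rw [Finsupp.sum_mapDomain_index_inj hp] at h
  have h1 : c'.sum (fun _ a => ‖a‖ ^ 2) = ∑ i ∈ S, ‖a i‖ ^ 2 := by
    rw [Finsupp.onFinset_sum _ (fun _ => by simp)]
    exact Finset.sum_congr rfl fun i hi => by simp [hi]
  have h2 : ∀ ξ : ℝ, (Finsupp.mapDomain p c').sum (fun p a => a * eF F p.1 p.2 ξ) =
      ∑ i ∈ S, a i * eF F (p i).1 (p i).2 ξ := by
    intro ξ
    rw [Finsupp.sum_mapDomain_index_inj hp, Finsupp.onFinset_sum _ (fun _ => by simp)]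
    exact Finset.sum_congr rfl fun i hi => by simp [hi]
  rw [h1] at h
  simp only [h2] at h
  exact h

lemma ch_natCast (l : ℕ) (η : ℝ) : ch (l : ℤ) η = ch 1 η ^ l := by
  induction l with
  | zero => simp [ch_zero]
  | succ l ih => rw [Nat.cast_succ, ch_add, ih, pow_succ]

/-- The peak function: `‖((1 + e^{-2πiη})/2)^n‖² = cos²(πη)^n`. -/
lemma norm_sq_peak (n : ℕ) (η : ℝ) :
    ‖∑ l ∈ Finset.range (n + 1), ((n.choose l : ℂ) / 2 ^ n) * ch l η‖ ^ 2 =
      (Real.cos (Real.pi * η) ^ 2) ^ n := by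
  have h1 : ∑ l ∈ Finset.range (n + 1), ((n.choose l : ℂ) / 2 ^ n) * ch l η =
      ((1 + ch 1 η) / 2) ^ n := by
    rw [div_pow, add_comm 1 (ch 1 η), add_pow, Finset.sum_div]
    refine Finset.sum_congr rfl fun l _ => ?_
    rw [ch_natCast, one_pow, mul_one]
    ring
  rw [h1, norm_pow, ← pow_mul, mul_comm n 2, pow_mul]
  congr 1
  have h2 : (1 + ch 1 η) / 2 = ((Real.cos (Real.pi * η) : ℝ) : ℂ) *
      Complex.exp (((-(Real.pi * η) : ℝ) : ℂ) * Complex.I) := by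
    have e1 : ch 1 η = Complex.exp (((-(Real.pi * η) : ℝ) : ℂ) * Complex.I) *
        Complex.exp (((-(Real.pi * η) : ℝ) : ℂ) * Complex.I) := by
      unfold ch
      rw [← Complex.exp_add]
      congr 1
      push_cast
      ring
    have e2 : (1 : ℂ) = Complex.exp (((Real.pi * η : ℝ) : ℂ) * Complex.I) *
        Complex.exp (((-(Real.pi * η) : ℝ) : ℂ) * Complex.I) := by
      rw [← Complex.exp_add]
      push_cast
      simp
    rw [Complex.ofReal_cos, Complex.cos, e1]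
    nth_rewrite 1 [e2]
    push_cast
    ring
  rw [h2, norm_mul, Complex.norm_exp_ofReal_mul_I, mul_one, Complex.norm_real, Real.norm_eq_abs,
    sq_abs]


lemma eF_continuous {F : ℝ → ℂ} {M : ℝ} (h : FData F M) (j k : ℤ) : Continuous (eF F j k) := by
  unfold eF
  exact continuous_const.mul (((ch_continuous k).comp (continuous_const.mul continuous_id)).mul
    (h.diff.continuous.comp (continuous_const.mul continuous_id)))

lemma norm_eF (F : ℝ → ℂ) (j k : ℤ) (ξ : ℝ) :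
    ‖eF F j k ξ‖ = (2 : ℝ) ^ (-(j : ℝ) / 2) * ‖F ((2 : ℝ) ^ (-j) * ξ)‖ := by
  unfold eF
  rw [norm_mul, norm_mul, norm_ch, one_mul, Complex.norm_real, Real.norm_eq_abs,
    abs_of_pos (by positivity)]

lemma norm_eF_le {F : ℝ → ℂ} {M : ℝ} (h : FData F M) (j k : ℤ) :
    ∃ C, 0 ≤ C ∧ ∀ ξ, ‖eF F j k ξ‖ ≤ C / (1 + |ξ|) := by
  set y : ℝ := (2 : ℝ) ^ (-j) with hy
  have hy0 : 0 < y := by positivity
  refine ⟨(2 : ℝ) ^ (-(j : ℝ) / 2) * (M * (1 + 1 / y)), by have := h.pos; positivity, fun ξ => ?_⟩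
  rw [norm_eF, mul_div_assoc]
  gcongr
  refine (h.decay _).trans ?_
  rw [div_le_div_iff₀ (by positivity) (by positivity), abs_mul, abs_of_pos hy0, mul_assoc]
  have := h.pos
  gcongr
  have : (1 + 1 / y) * (1 + y * |ξ|) = 1 + |ξ| + (1 / y + y * |ξ|) := by field_simp; ring
  rw [this]
  have : 0 ≤ 1 / y + y * |ξ| := by positivity
  linarith

lemma summable_shift (b : ℝ) : Summable fun k : ℤ => 1 / (1 + |b + (k : ℝ)|) ^ 2 := by
  have h1 : Summable fun k : ℤ => (1 : ℝ) / (1 + |(k : ℝ)|) ^ 2 := by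
    have h2 : Summable fun k : ℤ => |(k : ℝ)| ^ (-(2 : ℝ)) := Real.summable_abs_int_rpow (by norm_num)
    refine Summable.of_norm_bounded_eventually h2 ?_
    rw [Filter.eventually_cofinite]
    refine Set.Finite.subset (Set.finite_singleton (0 : ℤ)) fun k hk => ?_
    by_contra hk0
    apply hk
    have hk1 : (k : ℤ) ≠ 0 := hk0
    have hk2 : 0 < |(k : ℝ)| := by
      rw [abs_pos]; exact_mod_cast hk1
    rw [Real.norm_of_nonneg (by positivity), Real.rpow_neg (abs_nonneg _), one_div]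
    have : |(k : ℝ)| ^ (2 : ℝ) = |(k : ℝ)| ^ 2 := by norm_num
    rw [this]
    gcongr
    linarith
  refine Summable.of_nonneg_of_le (fun k => by positivity) (fun k => ?_) (h1.mul_left ((1 + |b|) ^ 2))
  rw [mul_one_div, div_le_div_iff₀ (by positivity) (by positivity), one_mul, ← mul_pow]
  have h3 : |(k : ℝ)| ≤ |b + k| + |b| := by
    have := abs_sub (b + (k : ℝ)) b
    simpa using this
  have h4 : 1 + |(k : ℝ)| ≤ (1 + |b|) * (1 + |b + (k : ℝ)|) := by
    have : 0 ≤ |b| * |b + (k : ℝ)| := by positivity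
    nlinarith
  gcongr

/-- **Lower Riesz bound in each fiber.** -/
lemma fiber_lower {F : ℝ → ℂ} {M A : ℝ} (h : FData F M)
    (hR : ∀ c : ℤ × ℤ →₀ ℂ, A * c.sum (fun _ a => ‖a‖ ^ 2) ≤
      ∫ ξ : ℝ, ‖c.sum (fun p a => a * eF F p.1 p.2 ξ)‖ ^ 2)
    (t : ℝ) (s : Finset X) (β : X → ℂ) :
    A * ∑ x ∈ s, ‖β x‖ ^ 2 ≤ ∑' k : ℤ, ‖∑ x ∈ s, β x * wf F x.1 (x.2 : ℕ) t k‖ ^ 2 := by
  classical
  -- the interpolating function
  set Φ : ℝ → ℂ := fun ξ => ∑ x ∈ s, β x * ch (-((x.2 : ℕ) : ℤ)) (t / 2 ^ x.1) *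
    eF F (x.1 : ℤ) (x.2 : ℕ) ξ with hΦ
  have hΦc : Continuous Φ := continuous_finsetSum _ fun x _ =>
    continuous_const.mul (eF_continuous h _ _)
  have hΦint : ∀ k : ℤ, Φ (t + k) = ∑ x ∈ s, β x * wf F x.1 (x.2 : ℕ) t k := by
    intro k
    refine Finset.sum_congr rfl fun x _ => ?_
    rw [eF_add_int, mul_assoc, ← mul_assoc (ch _ _), ← conj_ch, mul_comm ((starRingEnd ℂ) _),
      Complex.mul_conj', norm_ch]
    simp
  obtain ⟨C, hC0, hC⟩ : ∃ C, 0 ≤ C ∧ ∀ ξ, ‖Φ ξ‖ ≤ C / (1 + |ξ|) := by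
    choose D hD0 hD using fun x : X => norm_eF_le h (x.1 : ℤ) ((x.2 : ℕ) : ℤ)
    refine ⟨∑ x ∈ s, ‖β x‖ * D x, Finset.sum_nonneg fun x _ => mul_nonneg (norm_nonneg _) (hD0 x),
      fun ξ => ?_⟩
    rw [Finset.sum_div]
    refine (norm_sum_le _ _).trans (Finset.sum_le_sum fun x _ => ?_)
    rw [norm_mul, norm_mul, norm_ch, mul_one, mul_div_assoc]
    gcongr
    exact hD x ξ
  -- the peak functions
  set c : ℝ → ℝ := fun η => Real.cos (Real.pi * η) ^ 2 with hc
  have hcc : Continuous c := by fun_prop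
  set K : Set ℝ := Icc (-(1 / 2)) (1 / 2) with hK
  set J : ℕ → ℝ := fun n => ∫ η in K, c η ^ n with hJ
  have hcper : ∀ (η : ℝ) (k : ℤ), c (η + k) = c η := by
    intro η k
    simp only [hc]
    rw [Real.cos_sq, Real.cos_sq]
    have : 2 * (Real.pi * (η + k)) = 2 * (Real.pi * η) + k * (2 * Real.pi) := by ring
    rw [this, Real.cos_add_int_mul_two_pi]
  have hJpos : ∀ n, 0 < J n := by
    intro n
    have h1 : IntegrableOn (fun η => c η ^ n) K := (hcc.pow n).continuousOn.integrableOn_compact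
      isCompact_Icc
    rw [hJ]
    refine (setIntegral_pos_iff_support_of_nonneg_ae ?_ h1).2 ?_
    · exact Eventually.of_forall fun η => pow_nonneg (sq_nonneg _) n
    · have : Icc (-(1 / 4) : ℝ) (1 / 4) ⊆ Function.support (fun η => c η ^ n) ∩ K := by
        intro η hη
        refine ⟨?_, ⟨by linarith [hη.1], by linarith [hη.2]⟩⟩
        have hpi := Real.pi_pos
        have : 0 < Real.cos (Real.pi * η) := by
          apply Real.cos_pos_of_mem_Ioo
          constructor <;> nlinarith [hη.1, hη.2]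
        exact (pow_pos (pow_pos this 2) n).ne'
      refine lt_of_lt_of_le ?_ (measure_mono this)
      rw [Real.volume_Icc]
      norm_num
  -- inequality for each n
  have key : ∀ n : ℕ, A * ∑ x ∈ s, ‖β x‖ ^ 2 ≤
      ∑' k : ℤ, (J n)⁻¹ • ∫ η in K, c η ^ n • ‖Φ (t + k + η)‖ ^ 2 := by
    intro n
    set a : X × ℕ → ℂ := fun i => β i.1 * ch (-((i.1.2 : ℕ) : ℤ)) (t / 2 ^ i.1.1) *
      (((n.choose i.2 : ℂ) / 2 ^ n) * ch (-(i.2 : ℤ)) t) with ha
    have h1 := riesz_finset hR pidx pidx_injective (s ×ˢ Finset.range (n + 1)) a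
    have h2 : ∑ i ∈ s ×ˢ Finset.range (n + 1), ‖a i‖ ^ 2 =
        (∑ x ∈ s, ‖β x‖ ^ 2) * J n := by
      have e1 : ∀ i : X × ℕ, ‖a i‖ ^ 2 = ‖β i.1‖ ^ 2 * ‖((n.choose i.2 : ℂ) / 2 ^ n)‖ ^ 2 := by
        intro i
        simp only [ha]
        rw [norm_mul, norm_mul, norm_mul, norm_ch, norm_ch, mul_one, mul_one, mul_pow]
      have e2 : ∑ l ∈ Finset.range (n + 1), ‖((n.choose l : ℂ) / 2 ^ n)‖ ^ 2 = J n := by
        have e3 := integral_norm_sq_sum_ch ((Finset.range (n + 1)).image (fun l : ℕ => (l : ℤ)))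
          (fun l => ((n.choose l.toNat : ℂ) / 2 ^ n))
        rw [Finset.sum_image (by intro a _ b _ hab; simpa using hab)] at e3
        simp only [Int.toNat_natCast] at e3
        rw [← e3]
        have e4 : ∀ η : ℝ, ‖∑ l ∈ (Finset.range (n + 1)).image (fun l : ℕ => (l : ℤ)),
            ((n.choose l.toNat : ℂ) / 2 ^ n) * ch l η‖ ^ 2 = c η ^ n := by
          intro η
          rw [Finset.sum_image (by intro a _ b _ hab; simpa using hab)]
          simp only [Int.toNat_natCast]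
          exact norm_sq_peak n η
        simp only [e4]
        have e5 : Function.Periodic (fun η => c η ^ n) 1 := by
          intro η
          have := hcper η 1
          simp only [Int.cast_one] at this
          simp only [this]
        have e6 := e5.intervalIntegral_add_eq 0 (-(1 / 2))
        simp only [zero_add] at e6
        rw [e6, intervalIntegral.integral_of_le (by norm_num), ← integral_Icc_eq_integral_Ioc]
        norm_num [hJ, hK]
      rw [Finset.sum_product]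
      simp only [e1]
      rw [Finset.sum_mul]
      refine Finset.sum_congr rfl fun x _ => ?_
      rw [← Finset.mul_sum, e2]
    have h3 : ∀ ξ : ℝ, ‖∑ i ∈ s ×ˢ Finset.range (n + 1), a i * eF F (pidx i).1 (pidx i).2 ξ‖ ^ 2 =
        c (ξ - t) ^ n * ‖Φ ξ‖ ^ 2 := by
      intro ξ
      have e1 : ∑ i ∈ s ×ˢ Finset.range (n + 1), a i * eF F (pidx i).1 (pidx i).2 ξ =
          Φ ξ * ∑ l ∈ Finset.range (n + 1), ((n.choose l : ℂ) / 2 ^ n) * ch l (ξ - t) := by
        rw [Finset.sum_product, hΦ]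
        simp only
        rw [Finset.sum_mul_sum]
        refine Finset.sum_congr rfl fun x _ => Finset.sum_congr rfl fun l _ => ?_
        simp only [ha, pidx, eF_mul_ch]
        have e2 : ch (l : ℤ) (ξ - t) = ch (l : ℤ) ξ * ch (-(l : ℤ)) t := by
          rw [sub_eq_add_neg, ch_add_right]
          congr 1
          unfold ch
          congr 1
          push_cast
          ring
        rw [e2]
        ring
      rw [e1, norm_mul, mul_pow, norm_sq_peak, mul_comm]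
    rw [h2] at h1
    simp only [h3] at h1
    -- unfold the integral
    have hint : Integrable fun ξ => c (ξ - t) ^ n * ‖Φ ξ‖ ^ 2 := by
      have h4 : Integrable fun ξ : ℝ => C ^ 2 * (1 + ξ ^ 2)⁻¹ :=
        (integrable_inv_one_add_sq).const_mul _
      refine h4.mono' ?_ (Eventually.of_forall fun ξ => ?_)
      · exact (((hcc.comp (continuous_id.sub continuous_const)).pow n).mul
          (hΦc.norm.pow 2)).aestronglyMeasurable
      · have h5 : 0 ≤ c (ξ - t) := sq_nonneg _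
        have h6 : c (ξ - t) ≤ 1 := by
          simp only [hc]
          exact (sq_le_one_iff_abs_le_one _).2 (Real.abs_cos_le_one _)
        rw [Real.norm_of_nonneg (by positivity)]
        calc c (ξ - t) ^ n * ‖Φ ξ‖ ^ 2 ≤ 1 * (C / (1 + |ξ|)) ^ 2 := by
              gcongr
              · exact pow_le_one₀ h5 h6
              · exact hC ξ
          _ ≤ C ^ 2 * (1 + ξ ^ 2)⁻¹ := by
              rw [one_mul, div_pow, div_eq_mul_inv]
              gcongr
              rw [← sq_abs ξ]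
              nlinarith [abs_nonneg ξ]
    have hsum := hint.hasSum_intervalIntegral (t - 1 / 2)
    have h7 : ∀ k : ℤ, ∫ ξ in (t - 1 / 2 + k)..(t - 1 / 2 + k + 1), c (ξ - t) ^ n * ‖Φ ξ‖ ^ 2 =
        ∫ η in K, c η ^ n • ‖Φ (t + k + η)‖ ^ 2 := by
      intro k
      have e1 : t - 1 / 2 + k = -(1 / 2) + (t + k) := by ring
      have e2 : t - 1 / 2 + k + 1 = 1 / 2 + (t + k) := by ring
      rw [e2, e1, ← intervalIntegral.integral_comp_add_right, intervalIntegral.integral_of_le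
        (by norm_num), ← integral_Icc_eq_integral_Ioc]
      refine integral_congr_ae (Eventually.of_forall fun η => ?_)
      simp only [smul_eq_mul]
      have e3 : η + (t + k) - t = η + k := by ring
      have e4 : η + (t + k) = t + k + η := by ring
      rw [e3, hcper, e4]
    simp only [h7] at hsum
    have h8 : ∑' k : ℤ, (J n)⁻¹ • ∫ η in K, c η ^ n • ‖Φ (t + k + η)‖ ^ 2 =
        (J n)⁻¹ * ∫ ξ, c (ξ - t) ^ n * ‖Φ ξ‖ ^ 2 := by
      rw [← hsum.tsum_eq, ← tsum_mul_left]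
      rfl
    rw [h8, ← div_eq_inv_mul, le_div_iff₀ (hJpos n), mul_assoc]
    exact h1
  -- pass to the limit
  have hlim : Tendsto (fun n : ℕ => ∑' k : ℤ, (J n)⁻¹ • ∫ η in K, c η ^ n • ‖Φ (t + k + η)‖ ^ 2)
      atTop (𝓝 (∑' k : ℤ, ‖Φ (t + k)‖ ^ 2)) := by
    set b : ℝ := |t| + 1 / 2 with hb
    refine tendsto_tsum_of_dominated_convergence
      (bound := fun k : ℤ => (C * (1 + b)) ^ 2 * (1 / (1 + |(k : ℝ)|) ^ 2)) ?_ ?_ ?_
    · have := summable_shift 0
      simp only [zero_add] at this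
      exact this.mul_left _
    · intro k
      have h1 := tendsto_setIntegral_pow_smul_of_unique_maximum_of_isCompact_of_continuousOn
        (μ := (volume : Measure ℝ)) (s := K) isCompact_Icc (c := c) (x₀ := 0)
        (g := fun η => ‖Φ (t + k + η)‖ ^ 2) hcc.continuousOn ?_ ?_ ?_ ?_ ?_
      · simpa using h1
      · intro η hη hη0
        simp only [hc, mul_zero, Real.cos_zero, one_pow]
        rw [← Real.sin_sq_add_cos_sq (Real.pi * η), lt_add_iff_pos_left]
        apply sq_pos_of_ne_zero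
        intro h0
        have hpi := Real.pi_pos
        have h2 : Real.pi * η = 0 := by
          rw [← Real.sin_eq_zero_iff_of_lt_of_lt (x := Real.pi * η)]
          · exact h0
          · nlinarith [hη.1, hη.2]
          · nlinarith [hη.1, hη.2]
        rcases mul_eq_zero.1 h2 with h3 | h3
        · exact hpi.ne' h3
        · exact hη0 h3
      · intro η _
        exact sq_nonneg _
      · simp [hc]
      · rw [hK, interior_Icc, closure_Ioo (by norm_num)]
        constructor <;> norm_num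
      · exact ((hΦc.comp (continuous_const.add continuous_id)).norm.pow 2).continuousOn
    · refine Eventually.of_forall fun n k => ?_
      have hpt : ∀ η ∈ K, ‖Φ (t + k + η)‖ ^ 2 ≤ (C * (1 + b)) ^ 2 * (1 / (1 + |(k : ℝ)|) ^ 2) := by
        intro η hη
        have h1 := hC (t + k + η)
        have h2 : 1 + |(k : ℝ)| ≤ (1 + b) * (1 + |t + k + η|) := by
          have h3 : |η| ≤ 1 / 2 := abs_le.2 ⟨by linarith [hη.1], hη.2⟩
          have h4 : |(k : ℝ)| ≤ |t + k + η| + b := by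
            have : (k : ℝ) = (t + k + η) - (t + η) := by ring
            calc |(k : ℝ)| = |(t + k + η) - (t + η)| := by rw [← this]
              _ ≤ |t + k + η| + |t + η| := abs_sub _ _
              _ ≤ |t + k + η| + (|t| + |η|) := by gcongr; exact abs_add_le _ _
              _ ≤ _ := by rw [hb]; linarith
          have h5 : 0 ≤ b * |t + k + η| := by positivity
          nlinarith
        have h6 : C / (1 + |t + k + η|) ≤ C * (1 + b) / (1 + |(k : ℝ)|) := by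
          rw [div_le_div_iff₀ (by positivity) (by positivity), mul_assoc]
          gcongr
        calc ‖Φ (t + k + η)‖ ^ 2 ≤ (C * (1 + b) / (1 + |(k : ℝ)|)) ^ 2 := by
              gcongr
              exact h1.trans h6
          _ = _ := by rw [div_pow]; ring
      have h9 : ∫ η in K, c η ^ n • ‖Φ (t + k + η)‖ ^ 2 ≤
          ∫ η in K, c η ^ n * ((C * (1 + b)) ^ 2 * (1 / (1 + |(k : ℝ)|) ^ 2)) := by
        refine setIntegral_mono_on ?_ ?_ measurableSet_Icc fun η hη => ?_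
        · exact ((hcc.pow n).smul ((hΦc.comp
            (continuous_const.add continuous_id)).norm.pow 2)).continuousOn.integrableOn_compact
              isCompact_Icc
        · exact ((hcc.pow n).mul continuous_const).continuousOn.integrableOn_compact isCompact_Icc
        · rw [smul_eq_mul]
          have : 0 ≤ c η := sq_nonneg _
          exact mul_le_mul_of_nonneg_left (hpt η hη) (by positivity)
      rw [integral_mul_const] at h9
      have h10 : 0 ≤ ∫ η in K, c η ^ n • ‖Φ (t + k + η)‖ ^ 2 :=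
        setIntegral_nonneg measurableSet_Icc fun η _ =>
          mul_nonneg (pow_nonneg (sq_nonneg _) n) (sq_nonneg _)
      rw [smul_eq_mul, Real.norm_of_nonneg (mul_nonneg (inv_nonneg.2 (hJpos n).le) h10),
        ← div_eq_inv_mul, div_le_iff₀ (hJpos n), mul_comm]
      exact h9
  have := ge_of_tendsto' hlim key
  simp only [hΦint] at this
  exact this

end Pool.Agent.Lib.MP_53e230_an
end
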