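import Mathlib
import Pool.Agent.Lib.MP_53e230_an.Fiber

section

set_option autoImplicit false

/-!
The orthogonal complements `N(t)` of the fibers, and the injections between them.
-/

namespace Pool.Agent.Lib.MP_53e230_an

open MeasureTheory Filter Topology Set
open scoped FourierTransform SchwartzMap NNReal InnerProductSpace

/-- The Hilbert space `ℓ²(ℕ)`. -/
abbrev H : Type := lp (fun _ : ℕ => ℂ) 2

lemma sum_inv_sq_le {N : ℕ} (hN : 1 ≤ N) (n : ℕ) :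
    ∑ k ∈ Finset.range n, (1 : ℝ) / ((N : ℝ) + k) ^ 2 ≤ 2 / N := by
  have hN' : (1 : ℝ) ≤ N := by exact_mod_cast hN
  have h : ∀ n : ℕ, ∑ k ∈ Finset.range (n + 1), (1 : ℝ) / ((N : ℝ) + k) ^ 2 ≤
      2 / N - 1 / ((N : ℝ) + n) := by
    intro n
    induction n with
    | zero =>
      simp only [zero_add, Finset.range_one, Finset.sum_singleton, Nat.cast_zero, add_zero]
      rw [le_sub_iff_add_le]
      have : (1 : ℝ) / (N : ℝ) ^ 2 ≤ 1 / N := by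
        apply one_div_le_one_div_of_le (by linarith)
        nlinarith
      calc (1 : ℝ) / (N : ℝ) ^ 2 + 1 / N ≤ 1 / N + 1 / N := by gcongr
        _ = 2 / N := by ring
    | succ n ih =>
      rw [Finset.sum_range_succ]
      have hn : (0 : ℝ) ≤ n := Nat.cast_nonneg n
      have h1 : (1 : ℝ) / ((N : ℝ) + ((n + 1 : ℕ) : ℝ)) ^ 2 ≤
          1 / ((N : ℝ) + n) - 1 / ((N : ℝ) + ((n + 1 : ℕ) : ℝ)) := by
        push_cast
        rw [div_sub_div _ _ (by positivity) (by positivity), div_le_div_iff₀ (by positivity)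
          (by positivity)]
        nlinarith
      linarith
  cases n with
  | zero =>
    rw [Finset.range_zero, Finset.sum_empty]
    positivity
  | succ n =>
    refine (h n).trans ?_
    have : (0 : ℝ) ≤ 1 / ((N : ℝ) + n) := by positivity
    linarith

lemma summable_inv_sq {N : ℕ} (hN : 1 ≤ N) :
    Summable fun k : ℕ => (1 : ℝ) / ((N : ℝ) + k) ^ 2 :=
  summable_of_sum_range_le (fun k => by positivity) (sum_inv_sq_le hN)

lemma tsum_inv_sq_le {N : ℕ} (hN : 1 ≤ N) :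
    ∑' k : ℕ, (1 : ℝ) / ((N : ℝ) + k) ^ 2 ≤ 2 / N :=
  (summable_inv_sq hN).tsum_le_of_sum_range_le (sum_inv_sq_le hN)

lemma sq_two_rpow_neg_half (j : ℕ) : ((2 : ℝ) ^ (-(j : ℝ) / 2)) ^ 2 = 1 / 2 ^ j := by
  rw [← Real.rpow_natCast, ← Real.rpow_mul (by norm_num)]
  have : -(j : ℝ) / 2 * ((2 : ℕ) : ℝ) = -(j : ℝ) := by push_cast; ring
  rw [this, Real.rpow_neg (by norm_num), Real.rpow_natCast, one_div]

lemma norm_sq_wf (F : ℝ → ℂ) (j : ℕ) (r : ℤ) (t : ℝ) (k : ℤ) :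
    ‖wf F j r t k‖ ^ 2 = 1 / 2 ^ j * ‖F (((k : ℝ) + t) / 2 ^ j)‖ ^ 2 := by
  unfold wf
  rw [norm_mul, norm_mul, norm_ch, one_mul, Complex.norm_real, Real.norm_eq_abs,
    abs_of_pos (by positivity), mul_pow, sq_two_rpow_neg_half]

section

variable {F : ℝ → ℂ} {M : ℝ}

lemma norm_sq_wf_le (h : FData F M) (j : ℕ) (r : ℤ) {t : ℝ} (ht : 0 ≤ t) (k : ℕ) :
    ‖wf F j r t k‖ ^ 2 ≤ (M ^ 2 * 2 ^ j) * (1 / (((2 ^ j : ℕ) : ℝ) + k) ^ 2) := by
  rw [norm_sq_wf]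
  have h2 : (0 : ℝ) < 2 ^ j := by positivity
  have hk : (0 : ℝ) ≤ k := Nat.cast_nonneg k
  have h1 : ‖F ((((k : ℤ) : ℝ) + t) / 2 ^ j)‖ ≤ M * 2 ^ j / (2 ^ j + k) := by
    refine (h.decay _).trans ?_
    have hM := h.pos
    rw [div_le_div_iff₀ (by positivity) (by positivity), Int.cast_natCast,
      abs_of_nonneg (by positivity)]
    have : M * 2 ^ j * (1 + ((k : ℝ) + t) / 2 ^ j) = M * (2 ^ j + k) + M * t := by
      field_simp; ring
    rw [this]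
    have : 0 ≤ M * t := by positivity
    linarith
  calc 1 / 2 ^ j * ‖F ((((k : ℤ) : ℝ) + t) / 2 ^ j)‖ ^ 2
      ≤ 1 / 2 ^ j * (M * 2 ^ j / (2 ^ j + k)) ^ 2 := by gcongr
    _ = _ := by push_cast; field_simp

lemma memℓp_wf (h : FData F M) (j : ℕ) (r : ℤ) {t : ℝ} (ht : 0 ≤ t) :
    Memℓp (fun k : ℕ => wf F j r t k) 2 := by
  refine memℓp_gen ?_
  have h2 : (2 : ENNReal).toReal = ((2 : ℕ) : ℝ) := by norm_num
  simp only [h2, Real.rpow_natCast]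
  exact Summable.of_nonneg_of_le (fun k => sq_nonneg _) (fun k => norm_sq_wf_le h j r ht k)
    ((summable_inv_sq (Nat.one_le_two_pow)).mul_left _)

/-- The fiber vectors. -/
noncomputable def wv (h : FData F M) (t : ℝ≥0) (j : ℕ) (r : ℤ) : H :=
  ⟨fun k : ℕ => wf F j r t k, memℓp_wf h j r t.2⟩

lemma wv_apply (h : FData F M) (t : ℝ≥0) (j : ℕ) (r : ℤ) (k : ℕ) :
    (wv h t j r) k = wf F j r t k := rfl

lemma norm_sq_eq_tsum (u : H) : ‖u‖ ^ 2 = ∑' k, ‖u k‖ ^ 2 := by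
  have := lp.norm_rpow_eq_tsum (p := 2) (by norm_num) u
  have h2 : (2 : ENNReal).toReal = ((2 : ℕ) : ℝ) := by norm_num
  simpa only [h2, Real.rpow_natCast] using this

lemma summable_norm_sq (u : H) : Summable fun k => ‖u k‖ ^ 2 := by
  have := (lp.memℓp u).summable (p := 2) (by norm_num)
  have h2 : (2 : ENNReal).toReal = ((2 : ℕ) : ℝ) := by norm_num
  simpa only [h2, Real.rpow_natCast] using this

lemma norm_sq_wv_sub (h : FData F M) (t t' : ℝ≥0) (j : ℕ) (r : ℤ) :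
    ‖wv h t j r - wv h t' j r‖ ^ 2 ≤ 2 * M ^ 2 * |(t : ℝ) - t'| ^ 2 * (1 / 4) ^ j := by
  rw [norm_sq_eq_tsum]
  have hj : (0 : ℝ) < 2 ^ j := by positivity
  have hpt : ∀ k : ℕ, ‖(wv h t j r - wv h t' j r) k‖ ^ 2 ≤
      (1 / 2 ^ j * M ^ 2 * |(t : ℝ) - t'| ^ 2) * (1 / (((2 ^ j : ℕ) : ℝ) + k) ^ 2) := by
    intro k
    have hk : (0 : ℝ) ≤ k := Nat.cast_nonneg k
    have e1 : (wv h t j r - wv h t' j r) k = (((2 : ℝ) ^ (-(j : ℝ) / 2) : ℝ) : ℂ) *
        (ch r (((k : ℤ) : ℝ) / 2 ^ j) * (F ((((k : ℤ) : ℝ) + t) / 2 ^ j) -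
          F ((((k : ℤ) : ℝ) + t') / 2 ^ j))) := by
      rw [lp.coeFn_sub, Pi.sub_apply, wv_apply, wv_apply]
      unfold wf
      ring
    have e2 : ‖F ((((k : ℤ) : ℝ) + t) / 2 ^ j) - F ((((k : ℤ) : ℝ) + t') / 2 ^ j)‖ ≤
        M * |(t : ℝ) - t'| / (2 ^ j + k) := by
      have hlip := h.lip (a := (k : ℝ) / 2 ^ j) (x := (((k : ℤ) : ℝ) + t) / 2 ^ j)
        (y := (((k : ℤ) : ℝ) + t') / 2 ^ j) (by positivity)
        (by rw [Int.cast_natCast]; gcongr; linarith [t.2])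
        (by rw [Int.cast_natCast]; gcongr; linarith [t'.2])
      refine hlip.trans (le_of_eq ?_)
      have e3 : (((k : ℤ) : ℝ) + t) / 2 ^ j - (((k : ℤ) : ℝ) + t') / 2 ^ j =
          ((t : ℝ) - t') / 2 ^ j := by ring
      rw [e3, abs_div, abs_of_pos hj]
      field_simp
    rw [e1, norm_mul, norm_mul, norm_ch, one_mul, Complex.norm_real, Real.norm_eq_abs,
      abs_of_pos (by positivity), mul_pow, sq_two_rpow_neg_half]
    calc 1 / 2 ^ j * ‖F ((((k : ℤ) : ℝ) + t) / 2 ^ j) - F ((((k : ℤ) : ℝ) + t') / 2 ^ j)‖ ^ 2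
        ≤ 1 / 2 ^ j * (M * |(t : ℝ) - t'| / (2 ^ j + k)) ^ 2 := by gcongr
      _ = _ := by push_cast; field_simp
  calc ∑' k, ‖(wv h t j r - wv h t' j r) k‖ ^ 2
      ≤ ∑' k : ℕ, (1 / 2 ^ j * M ^ 2 * |(t : ℝ) - t'| ^ 2) *
          (1 / (((2 ^ j : ℕ) : ℝ) + k) ^ 2) :=
        (summable_norm_sq _).tsum_le_tsum hpt ((summable_inv_sq Nat.one_le_two_pow).mul_left _)
    _ = (1 / 2 ^ j * M ^ 2 * |(t : ℝ) - t'| ^ 2) *
          ∑' k : ℕ, (1 / (((2 ^ j : ℕ) : ℝ) + k) ^ 2) := tsum_mul_left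
    _ ≤ (1 / 2 ^ j * M ^ 2 * |(t : ℝ) - t'| ^ 2) * (2 / ((2 ^ j : ℕ) : ℝ)) := by
        gcongr
        exact tsum_inv_sq_le Nat.one_le_two_pow
    _ = _ := by
        have e4 : (1 / 4 : ℝ) ^ j = 1 / 2 ^ j * (1 / 2 ^ j) := by
          rw [← one_div_pow, ← mul_pow]; norm_num
        rw [e4]
        push_cast
        ring

lemma sum_quarter_le (s : Finset X) : ∑ x ∈ s, (1 / 4 : ℝ) ^ x.1 ≤ 2 := by
  classical
  obtain ⟨J, hJ⟩ : ∃ J : ℕ, ∀ x ∈ s, x.1 < J := by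
    refine ⟨s.sup (fun x => x.1) + 1, fun x hx => ?_⟩
    exact Nat.lt_succ_of_le (Finset.le_sup (f := fun x : X => x.1) hx)
  have hsub : s ⊆ (Finset.range J).sigma fun _ => Finset.univ := by
    intro x hx
    simp [hJ x hx]
  calc ∑ x ∈ s, (1 / 4 : ℝ) ^ x.1
      ≤ ∑ x ∈ (Finset.range J).sigma fun _ => Finset.univ, (1 / 4 : ℝ) ^ x.1 :=
        Finset.sum_le_sum_of_subset_of_nonneg hsub fun _ _ _ => by positivity
    _ = ∑ j ∈ Finset.range J, (1 / 2 : ℝ) ^ j := by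
        rw [Finset.sum_sigma]
        refine Finset.sum_congr rfl fun j _ => ?_
        simp only [Finset.sum_const, Finset.card_univ, Fintype.card_fin, nsmul_eq_mul]
        push_cast
        rw [← mul_pow]
        norm_num
    _ ≤ ∑' j : ℕ, (1 / 2 : ℝ) ^ j :=
        (summable_geometric_two).sum_le_tsum _ fun _ _ => by positivity
    _ = 2 := tsum_geometric_two

/-- Hilbert-Schmidt type Lipschitz bound. -/
lemma norm_sum_sub_le (h : FData F M) (t t' : ℝ≥0) (s : Finset X) (β : X → ℂ) :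
    ‖∑ x ∈ s, β x • wv h t x.1 (x.2 : ℕ) - ∑ x ∈ s, β x • wv h t' x.1 (x.2 : ℕ)‖ ≤
      2 * M * |(t : ℝ) - t'| * √(∑ x ∈ s, ‖β x‖ ^ 2) := by
  have hM := h.pos
  rw [← Finset.sum_sub_distrib]
  simp only [← smul_sub]
  calc ‖∑ x ∈ s, β x • (wv h t x.1 (x.2 : ℕ) - wv h t' x.1 (x.2 : ℕ))‖
      ≤ ∑ x ∈ s, ‖β x‖ * ‖wv h t x.1 (x.2 : ℕ) - wv h t' x.1 (x.2 : ℕ)‖ := by
        refine (norm_sum_le _ _).trans (Finset.sum_le_sum fun x _ => ?_)
        rw [norm_smul]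
    _ ≤ √(∑ x ∈ s, ‖β x‖ ^ 2) *
          √(∑ x ∈ s, ‖wv h t x.1 (x.2 : ℕ) - wv h t' x.1 (x.2 : ℕ)‖ ^ 2) :=
        Real.sum_mul_le_sqrt_mul_sqrt _ _ _
    _ ≤ √(∑ x ∈ s, ‖β x‖ ^ 2) * (2 * M * |(t : ℝ) - t'|) := by
        gcongr
        apply Real.sqrt_le_iff.2
        refine ⟨by positivity, ?_⟩
        calc ∑ x ∈ s, ‖wv h t x.1 (x.2 : ℕ) - wv h t' x.1 (x.2 : ℕ)‖ ^ 2
            ≤ ∑ x ∈ s, 2 * M ^ 2 * |(t : ℝ) - t'| ^ 2 * (1 / 4) ^ x.1 :=
              Finset.sum_le_sum fun x _ => norm_sq_wv_sub h t t' x.1 _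
          _ = 2 * M ^ 2 * |(t : ℝ) - t'| ^ 2 * ∑ x ∈ s, (1 / 4 : ℝ) ^ x.1 := by
              rw [Finset.mul_sum]
          _ ≤ 2 * M ^ 2 * |(t : ℝ) - t'| ^ 2 * 2 := by
              gcongr
              exact sum_quarter_le s
          _ = (2 * M * |(t : ℝ) - t'|) ^ 2 := by ring
    _ = _ := by ring

/-- The lower Riesz bound for the fiber vectors, in `ℓ²(ℕ)`. -/
lemma lower_wv (h : FData F M) {A : ℝ}
    (hR : ∀ c : ℤ × ℤ →₀ ℂ, A * c.sum (fun _ a => ‖a‖ ^ 2) ≤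
      ∫ ξ : ℝ, ‖c.sum (fun p a => a * eF F p.1 p.2 ξ)‖ ^ 2)
    {t : ℝ≥0} (ht : t ≤ 1) (s : Finset X) (β : X → ℂ) :
    A * ∑ x ∈ s, ‖β x‖ ^ 2 ≤ ‖∑ x ∈ s, β x • wv h t x.1 (x.2 : ℕ)‖ ^ 2 := by
  refine (fiber_lower h hR t s β).trans (le_of_eq ?_)
  rw [norm_sq_eq_tsum]
  have h1 : ∀ k : ℕ, (∑ x ∈ s, β x • wv h t x.1 (x.2 : ℕ)) k =
      ∑ x ∈ s, β x * wf F x.1 (x.2 : ℕ) t k := by
    intro k
    rw [lp.coeFn_sum, Finset.sum_apply]
    rfl
  simp only [h1]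
  rw [← (Nat.cast_injective (R := ℤ)).tsum_eq]
  · intro k hk
    by_contra hk'
    apply hk
    have hk0 : k ≤ -1 := by
      by_contra hk2
      apply hk'
      obtain ⟨n, hn⟩ := Int.eq_ofNat_of_zero_le (show 0 ≤ k by omega)
      exact ⟨n, hn.symm⟩
    have hz : ∀ x ∈ s, β x * wf F x.1 (x.2 : ℕ) t k = 0 := by
      intro x _
      unfold wf
      rw [h.zero, mul_zero, mul_zero, mul_zero]
      have h2 : (k : ℝ) ≤ -1 := by exact_mod_cast hk0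
      have h3 : (t : ℝ) ≤ 1 := by exact_mod_cast ht
      exact div_nonpos_of_nonpos_of_nonneg (by linarith) (by positivity)
    change ‖∑ x ∈ s, β x * wf F x.1 (x.2 : ℕ) t k‖ ^ 2 = 0
    rw [Finset.sum_eq_zero hz]
    simp

end

/-- An element of the closure of a subspace to which it is almost orthogonal vanishes. -/
lemma eq_zero_of_closure {V : Type*} [NormedAddCommGroup V] [InnerProductSpace ℂ V]
    (S : Submodule ℂ V) {f : V} (hf : f ∈ S.topologicalClosure) {θ : ℝ} (hθ : θ < 1)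
    (hw : ∀ w ∈ S, ‖⟪w, f⟫_ℂ‖ ≤ θ * ‖f‖ * ‖w‖) : f = 0 := by
  have h1 : ∀ w ∈ S.topologicalClosure, ‖⟪w, f⟫_ℂ‖ ≤ θ * ‖f‖ * ‖w‖ := by
    intro w hwS
    have hcl : IsClosed {w : V | ‖⟪w, f⟫_ℂ‖ ≤ θ * ‖f‖ * ‖w‖} :=
      isClosed_le (by fun_prop) (by fun_prop)
    have : closure (S : Set V) ⊆ {w : V | ‖⟪w, f⟫_ℂ‖ ≤ θ * ‖f‖ * ‖w‖} :=
      hcl.closure_subset_iff.2 fun w hw' => hw w hw'
    exact this hwS
  have h2 := h1 f hf
  rw [inner_self_eq_norm_sq_to_K] at h2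
  by_contra hne
  have h3 : 0 < ‖f‖ := norm_pos_iff.2 hne
  have h4 : ‖f‖ ^ 2 ≤ θ * ‖f‖ * ‖f‖ := by
    simpa using h2
  nlinarith [mul_pos h3 h3]

section

variable {F : ℝ → ℂ} {M : ℝ}

/-- The span of the fiber vectors. -/
noncomputable def EE (h : FData F M) (t : ℝ≥0) : Submodule ℂ H :=
  Submodule.span ℂ (Set.range fun x : X => wv h t x.1 (x.2 : ℕ))

/-- The orthogonal complement of the fiber. -/
noncomputable def NN (h : FData F M) (t : ℝ≥0) : Submodule ℂ H := (EE h t)ᗮ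

lemma mem_EE (h : FData F M) (t : ℝ≥0) {w : H} (hw : w ∈ EE h t) :
    ∃ (s : Finset X) (β : X → ℂ), w = ∑ x ∈ s, β x • wv h t x.1 (x.2 : ℕ) := by
  unfold EE at hw
  rw [Finsupp.mem_span_range_iff_exists_finsupp] at hw
  obtain ⟨c, hc⟩ := hw
  exact ⟨c.support, c, hc.symm⟩

/-- Nearby complements: nothing of `N(t)` is orthogonal to `N(t')`. -/
lemma NN_step (h : FData F M) {A : ℝ} (hA : 0 < A)
    (hR : ∀ c : ℤ × ℤ →₀ ℂ, A * c.sum (fun _ a => ‖a‖ ^ 2) ≤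
      ∫ ξ : ℝ, ‖c.sum (fun p a => a * eF F p.1 p.2 ξ)‖ ^ 2)
    {t t' : ℝ≥0} (ht' : t' ≤ 1) (htt : 2 * M * |(t' : ℝ) - t| < √A) {u : H}
    (hu : u ∈ NN h t) (hu' : u ∈ (NN h t')ᗮ) : u = 0 := by
  have hsA : 0 < √A := Real.sqrt_pos.2 hA
  unfold NN at hu'
  rw [Submodule.orthogonal_orthogonal_eq_closure] at hu'
  refine eq_zero_of_closure (EE h t') hu' (θ := 2 * M * |(t' : ℝ) - t| / √A)
    ((div_lt_one hsA).2 htt) fun w hw => ?_
  obtain ⟨s, β, rfl⟩ := mem_EE h t' hw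
  set w0 : H := ∑ x ∈ s, β x • wv h t x.1 (x.2 : ℕ) with hw0
  have hw0' : w0 ∈ EE h t := Submodule.sum_mem _ fun x _ =>
    Submodule.smul_mem _ _ (Submodule.subset_span ⟨x, rfl⟩)
  have h1 : ⟪w0, u⟫_ℂ = 0 := (Submodule.mem_orthogonal _ _).1 hu w0 hw0'
  have h2 : ⟪∑ x ∈ s, β x • wv h t' x.1 (x.2 : ℕ), u⟫_ℂ =
      ⟪∑ x ∈ s, β x • wv h t' x.1 (x.2 : ℕ) - w0, u⟫_ℂ := by
    rw [inner_sub_left, h1, sub_zero]
  have h3 := lower_wv h hR ht' s β
  have h4 : √(∑ x ∈ s, ‖β x‖ ^ 2) ≤ ‖∑ x ∈ s, β x • wv h t' x.1 (x.2 : ℕ)‖ / √A := by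
    rw [le_div_iff₀ hsA, ← Real.sqrt_mul (Finset.sum_nonneg fun _ _ => sq_nonneg _)]
    rw [mul_comm]
    exact Real.sqrt_le_iff.2 ⟨norm_nonneg _, h3⟩
  have hM := h.pos
  rw [h2]
  calc ‖⟪∑ x ∈ s, β x • wv h t' x.1 (x.2 : ℕ) - w0, u⟫_ℂ‖
      ≤ ‖∑ x ∈ s, β x • wv h t' x.1 (x.2 : ℕ) - w0‖ * ‖u‖ := norm_inner_le_norm _ _
    _ ≤ (2 * M * |(t' : ℝ) - t| * √(∑ x ∈ s, ‖β x‖ ^ 2)) * ‖u‖ := by
        gcongr
        exact norm_sum_sub_le h t' t s β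
    _ ≤ (2 * M * |(t' : ℝ) - t| * (‖∑ x ∈ s, β x • wv h t' x.1 (x.2 : ℕ)‖ / √A)) * ‖u‖ := by
        gcongr
    _ = _ := by ring

/-- Injection between nearby complements. -/
lemma exists_injective_step (h : FData F M) {A : ℝ} (hA : 0 < A)
    (hR : ∀ c : ℤ × ℤ →₀ ℂ, A * c.sum (fun _ a => ‖a‖ ^ 2) ≤
      ∫ ξ : ℝ, ‖c.sum (fun p a => a * eF F p.1 p.2 ξ)‖ ^ 2)
    {t t' : ℝ≥0} (ht' : t' ≤ 1) (htt : 2 * M * |(t' : ℝ) - t| < √A) :
    ∃ φ : NN h t →ₗ[ℂ] NN h t', Function.Injective φ := by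
  have : CompleteSpace (NN h t') := by
    unfold NN
    exact (Submodule.isClosed_orthogonal _).completeSpace_coe
  refine ⟨((NN h t').orthogonalProjectionOnto : H →L[ℂ] NN h t').toLinearMap ∘ₗ (NN h t).subtype,
    ?_⟩
  rw [← LinearMap.ker_eq_bot, LinearMap.ker_eq_bot']
  intro u hu
  have h1 : (NN h t').orthogonalProjectionOnto (u : H) = 0 := hu
  rw [Submodule.orthogonalProjectionOnto_eq_zero_iff] at h1
  have := NN_step h hA hR ht' htt u.2 h1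
  exact Subtype.ext this

/-- Injection `N(0) → N(1)`. -/
lemma exists_injective_zero_one (h : FData F M) {A : ℝ} (hA : 0 < A)
    (hR : ∀ c : ℤ × ℤ →₀ ℂ, A * c.sum (fun _ a => ‖a‖ ^ 2) ≤
      ∫ ξ : ℝ, ‖c.sum (fun p a => a * eF F p.1 p.2 ξ)‖ ^ 2) :
    ∃ φ : NN h 0 →ₗ[ℂ] NN h 1, Function.Injective φ := by
  obtain ⟨n, hn⟩ := exists_nat_gt (2 * M / √A)
  have hsA : 0 < √A := Real.sqrt_pos.2 hA
  have hM := h.pos
  have hn0 : 0 < (n : ℝ) := lt_of_le_of_lt (by positivity) hn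
  have hn1 : 0 < n := by exact_mod_cast hn0
  have key : ∀ m : ℕ, m ≤ n → ∃ φ : NN h 0 →ₗ[ℂ] NN h ((m : ℝ≥0) / n), Function.Injective φ := by
    intro m
    induction m with
    | zero =>
      intro _
      have : ((0 : ℕ) : ℝ≥0) / n = 0 := by simp
      rw [this]
      exact ⟨LinearMap.id, Function.injective_id⟩
    | succ m ih =>
      intro hm
      obtain ⟨φ, hφ⟩ := ih (by omega)
      have hle : ((m + 1 : ℕ) : ℝ≥0) / n ≤ 1 := by
        rw [div_le_one (by exact_mod_cast hn1)]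
        exact_mod_cast hm
      have hlt : 2 * M * |((((m + 1 : ℕ) : ℝ≥0) / n : ℝ≥0) : ℝ) -
          (((m : ℝ≥0) / n : ℝ≥0) : ℝ)| < √A := by
        have e : ((((m + 1 : ℕ) : ℝ≥0) / n : ℝ≥0) : ℝ) - (((m : ℝ≥0) / n : ℝ≥0) : ℝ) = 1 / n := by
          push_cast
          ring
        rw [e, abs_of_pos (by positivity), mul_one_div, div_lt_iff₀ hn0]
        rw [div_lt_iff₀ hsA] at hn
        linarith
      obtain ⟨φ', hφ'⟩ := exists_injective_step h hA hR hle hlt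
      exact ⟨φ' ∘ₗ φ, hφ'.comp hφ⟩
  have hk := key n le_rfl
  have h1 : (n : ℝ≥0) / n = 1 := div_self (by exact_mod_cast hn1.ne')
  rw [h1] at hk
  exact hk

end

end Pool.Agent.Lib.MP_53e230_an
end

section

set_option autoImplicit false

/-!
The step functions `Σ u_n 1_{(n, n+δ]}` and their inner products with the wavelet system.
-/

namespace Pool.Agent.Lib.MP_53e230_an

open MeasureTheory Filter Topology Set
open scoped FourierTransform SchwartzMap NNReal InnerProductSpace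

/-- The Hilbert space `L²(ℝ)`. -/
abbrev L2R : Type := Lp ℂ 2 (volume : Measure ℝ)

/-- Normalised indicator functions of `(n, n+δ]`. -/
noncomputable def vn (δ : ℝ) (n : ℕ) : L2R :=
  (((√δ)⁻¹ : ℝ) : ℂ) • indicatorConstLp 2 (measurableSet_Ioc : MeasurableSet (Ioc (n : ℝ) (n + δ)))
    (by simp) (1 : ℂ)

lemma vn_orthonormal {δ : ℝ} (hδ : 0 < δ) (hδ1 : δ ≤ 1) : Orthonormal ℂ (vn δ) := by
  classical
  rw [orthonormal_iff_ite]
  intro n m
  unfold vn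
  rw [inner_smul_left, inner_smul_right, L2.inner_indicatorConstLp_one_indicatorConstLp_one
    measurableSet_Ioc measurableSet_Ioc (by simp) (by simp)]
  split_ifs with h
  · subst h
    rw [inter_self, Measure.real, Real.volume_Ioc, add_sub_cancel_left, ENNReal.toReal_ofReal hδ.le,
      Complex.conj_ofReal]
    have h2 : 0 < √δ := Real.sqrt_pos.2 hδ
    have : (√δ)⁻¹ * ((√δ)⁻¹ * δ) = 1 := by
      rw [← mul_assoc, ← mul_inv, Real.mul_self_sqrt hδ.le, inv_mul_cancel₀ hδ.ne']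
    have h3 := congrArg Complex.ofReal this
    rw [Complex.ofReal_mul, Complex.ofReal_mul, Complex.ofReal_one] at h3
    exact h3
  · have hdis : Ioc (n : ℝ) (n + δ) ∩ Ioc (m : ℝ) (m + δ) = ∅ := by
      ext x
      simp only [mem_inter_iff, mem_Ioc, mem_empty_iff_false, iff_false]
      rintro ⟨⟨h1, h2⟩, h3, h4⟩
      rcases lt_or_gt_of_ne h with h5 | h5
      · have : (n : ℝ) + 1 ≤ m := by exact_mod_cast h5
        linarith
      · have : (m : ℝ) + 1 ≤ n := by exact_mod_cast h5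
        linarith
    rw [hdis]
    simp

/-- The isometry `ℓ²(ℕ) → L²(ℝ)`. -/
noncomputable def TT {δ : ℝ} (hδ : 0 < δ) (hδ1 : δ ≤ 1) : H →ₗᵢ[ℂ] L2R :=
  (vn_orthonormal hδ hδ1).orthogonalFamily.linearIsometry

lemma hasSum_inner_TT {δ : ℝ} (hδ : 0 < δ) (hδ1 : δ ≤ 1) (u : H) (g : L2R) :
    HasSum (fun n => u n * ⟪g, vn δ n⟫_ℂ) ⟪g, TT hδ hδ1 u⟫_ℂ := by
  have h := (vn_orthonormal hδ hδ1).orthogonalFamily.hasSum_linearIsometry u
  have h2 := h.mapL (innerSL ℂ g)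
  simp only [LinearIsometry.toSpanSingleton_apply, innerSL_apply_apply, inner_smul_right] at h2
  exact h2

lemma inner_vn {δ : ℝ} (hδ : 0 < δ) {G : ℝ → ℂ} (hG : MemLp G 2 (volume : Measure ℝ)) (n : ℕ) :
    ⟪hG.toLp G, vn δ n⟫_ℂ =
      (((√δ)⁻¹ : ℝ) : ℂ) * (starRingEnd ℂ) (∫ τ in (0 : ℝ)..δ, G (n + τ)) := by
  unfold vn
  rw [inner_smul_right, ← inner_conj_symm, L2.inner_indicatorConstLp_one]
  congr 2
  rw [setIntegral_congr_ae (g := G) measurableSet_Ioc (by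
    filter_upwards [hG.coeFn_toLp] with x hx _ using hx)]
  rw [intervalIntegral.integral_comp_add_left (fun x => G x) (n : ℝ), add_zero,
    intervalIntegral.integral_of_le (by linarith)]

/-- Cauchy-Schwarz for series. -/
lemma norm_le_of_hasSum {u : H} {D : ℕ → ℂ} {I : ℂ} {N : ℕ} (hN : 1 ≤ N) {K : ℝ} (hK : 0 ≤ K)
    (hs : HasSum (fun n => u n * D n) I) (hD : ∀ n, u n ≠ 0 → ‖D n‖ ≤ K / (N + n)) :
    ‖I‖ ≤ ‖u‖ * (K * √(2 / N)) := by
  have hN' : (1 : ℝ) ≤ N := by exact_mod_cast hN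
  refine le_of_tendsto hs.norm (Eventually.of_forall fun s => ?_)
  calc ‖∑ n ∈ s, u n * D n‖ ≤ ∑ n ∈ s, ‖u n‖ * (K / (N + n)) := by
        refine (norm_sum_le _ _).trans (Finset.sum_le_sum fun n _ => ?_)
        rw [norm_mul]
        by_cases h : u n = 0
        · simp [h]
        · gcongr
          exact hD n h
    _ ≤ √(∑ n ∈ s, ‖u n‖ ^ 2) * √(∑ n ∈ s, (K / ((N : ℝ) + n)) ^ 2) :=
        Real.sum_mul_le_sqrt_mul_sqrt _ _ _
    _ ≤ ‖u‖ * (K * √(2 / N)) := by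
        gcongr
        · apply Real.sqrt_le_iff.2
          refine ⟨norm_nonneg _, ?_⟩
          rw [norm_sq_eq_tsum]
          exact (summable_norm_sq u).sum_le_tsum _ fun _ _ => sq_nonneg _
        · apply Real.sqrt_le_iff.2
          refine ⟨by positivity, ?_⟩
          rw [mul_pow, Real.sq_sqrt (by positivity)]
          have h1 : ∀ n ∈ s, (K / ((N : ℝ) + n)) ^ 2 = K ^ 2 * (1 / ((N : ℝ) + n) ^ 2) := by
            intro n _
            rw [div_pow, mul_one_div]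
          rw [Finset.sum_congr rfl h1, ← Finset.mul_sum]
          gcongr
          exact ((summable_inv_sq hN).sum_le_tsum _ fun _ _ => by positivity).trans
            (tsum_inv_sq_le hN)

section

variable {F : ℝ → ℂ} {M : ℝ}

lemma eF_memLp (h : FData F M) (j k : ℤ) : MemLp (eF F j k) 2 (volume : Measure ℝ) := by
  obtain ⟨C, hC0, hC⟩ := norm_eF_le h j k
  rw [memLp_two_iff_integrable_sq_norm (eF_continuous h j k).aestronglyMeasurable]
  have h4 : Integrable fun ξ : ℝ => C ^ 2 * (1 + ξ ^ 2)⁻¹ :=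
    (integrable_inv_one_add_sq).const_mul _
  refine h4.mono' ((eF_continuous h j k).norm.pow 2).aestronglyMeasurable
    (Eventually.of_forall fun ξ => ?_)
  rw [Real.norm_of_nonneg (by positivity)]
  calc ‖eF F j k ξ‖ ^ 2 ≤ (C / (1 + |ξ|)) ^ 2 := by
        gcongr
        exact hC ξ
    _ ≤ C ^ 2 * (1 + ξ ^ 2)⁻¹ := by
        rw [div_pow, div_eq_mul_inv]
        gcongr
        rw [← sq_abs ξ]
        nlinarith [abs_nonneg ξ]

/-- The wavelet system (Fourier side) in `L²(ℝ)`. -/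
noncomputable def eL (h : FData F M) (p : ℤ × ℤ) : L2R := (eF_memLp h p.1 p.2).toLp _

/-- Linear combinations with the translation index, at a fixed scale. -/
lemma sum_eF (F : ℝ → ℂ) (j : ℤ) (T : Finset ℤ) (c : ℤ → ℂ) (ξ : ℝ) :
    ∑ k ∈ T, c k * eF F j k ξ = (((2 : ℝ) ^ (-(j : ℝ) / 2) : ℝ) : ℂ) *
      (tp T c ((2 : ℝ) ^ (-j) * ξ) * F ((2 : ℝ) ^ (-j) * ξ)) := by
  unfold eF tp
  rw [Finset.sum_mul, Finset.mul_sum]
  refine Finset.sum_congr rfl fun k _ => ?_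
  ring

/-- Expansion of the inner product of a fixed scale piece with a step function. -/
lemma hasSum_scale (h : FData F M) {δ : ℝ} (hδ : 0 < δ) (hδ1 : δ ≤ 1) (u : H) (j : ℤ)
    (T : Finset ℤ) (c : ℤ → ℂ) :
    HasSum (fun n : ℕ => u n * ((((√δ)⁻¹ : ℝ) : ℂ) * (starRingEnd ℂ)
        (∫ τ in (0 : ℝ)..δ, (((2 : ℝ) ^ (-(j : ℝ) / 2) : ℝ) : ℂ) *
          (tp T c ((2 : ℝ) ^ (-j) * (n + τ)) * F ((2 : ℝ) ^ (-j) * (n + τ))))))
      (∑ k ∈ T, (starRingEnd ℂ) (c k) * ⟪eL h (j, k), TT hδ hδ1 u⟫_ℂ) := by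
  have h1 : ∀ k ∈ T, HasSum (fun n : ℕ => (starRingEnd ℂ) (c k) * (u n * ⟪eL h (j, k), vn δ n⟫_ℂ))
      ((starRingEnd ℂ) (c k) * ⟪eL h (j, k), TT hδ hδ1 u⟫_ℂ) := fun k _ =>
    (hasSum_inner_TT hδ hδ1 u (eL h (j, k))).mul_left _
  have h2 := hasSum_sum h1
  convert h2 using 1
  funext n
  have h3 : ∀ k, ⟪eL h (j, k), vn δ n⟫_ℂ = (((√δ)⁻¹ : ℝ) : ℂ) * (starRingEnd ℂ)
      (∫ τ in (0 : ℝ)..δ, eF F j k (n + τ)) := fun k => inner_vn hδ (eF_memLp h j k) n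
  simp only [h3]
  have h4 : ∀ τ : ℝ, (((2 : ℝ) ^ (-(j : ℝ) / 2) : ℝ) : ℂ) *
          (tp T c ((2 : ℝ) ^ (-j) * (n + τ)) * F ((2 : ℝ) ^ (-j) * (n + τ))) =
      ∑ k ∈ T, c k * eF F j k (n + τ) := fun τ => (sum_eF F j T c _).symm
  simp only [h4]
  rw [intervalIntegral.integral_finsetSum]
  · simp only [intervalIntegral.integral_const_mul, map_sum, map_mul, Finset.mul_sum]
    refine Finset.sum_congr rfl fun k _ => ?_
    ring
  · intro k _
    exact (continuous_const.mul ((eF_continuous h j k).comp (by fun_prop))).intervalIntegrable _ _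

end

end Pool.Agent.Lib.MP_53e230_an
end

section

set_option autoImplicit false

/-!
Almost orthogonality of the step functions with symbol in `N(0)` to each scale.
-/

namespace Pool.Agent.Lib.MP_53e230_an

open MeasureTheory Filter Topology Set
open scoped FourierTransform SchwartzMap NNReal InnerProductSpace

section

variable {F : ℝ → ℂ} {M : ℝ}

lemma hasSum_wf_zero (h : FData F M) {u : H} (hu : u ∈ NN h 0) (j : ℕ) (l : ℤ) :
    HasSum (fun n : ℕ => u n * (starRingEnd ℂ) (wf F j l 0 n)) 0 := by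
  have hpos : (0 : ℤ) < 2 ^ j := by positivity
  have h1 : (0 : ℤ) ≤ l % 2 ^ j := Int.emod_nonneg _ hpos.ne'
  have h2 : l % 2 ^ j < 2 ^ j := Int.emod_lt_of_pos _ hpos
  obtain ⟨r, hr⟩ := Int.eq_ofNat_of_zero_le h1
  have hr2 : r < 2 ^ j := by
    rw [hr] at h2
    exact_mod_cast h2
  have hwf : ∀ n : ℕ, wf F j l 0 n = wf F j r 0 n := by
    intro n
    unfold wf
    congr 2
    have e1 : l = r + 2 ^ j * (l / 2 ^ j) := by
      have := Int.emod_add_mul_ediv l (2 ^ j)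
      rw [hr] at this
      exact this.symm
    have e2 : ch (2 ^ j * (l / 2 ^ j)) (((n : ℤ) : ℝ) / 2 ^ j) = 1 := by
      have e3 := ch_int (l / 2 ^ j) n
      rw [← e3]
      unfold ch
      congr 1
      have : (2 * Real.pi * ((2 ^ j * (l / 2 ^ j) : ℤ) : ℝ) * (((n : ℤ) : ℝ) / 2 ^ j) : ℝ) =
          2 * Real.pi * ((l / 2 ^ j : ℤ) : ℝ) * ((n : ℤ) : ℝ) := by
        push_cast
        field_simp
      rw [this]
    nth_rewrite 1 [e1]
    rw [ch_add, e2, mul_one]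
  have hmem : wv h 0 j r ∈ EE h 0 := Submodule.subset_span ⟨⟨j, ⟨r, hr2⟩⟩, rfl⟩
  have hin : ⟪wv h 0 j r, u⟫_ℂ = 0 := (Submodule.mem_orthogonal _ _).1 hu _ hmem
  have hs := lp.hasSum_inner (𝕜 := ℂ) (wv h 0 j r) u
  rw [hin] at hs
  have hfun : (fun n : ℕ => u n * (starRingEnd ℂ) (wf F j l 0 n)) =
      fun n : ℕ => ⟪(wv h 0 j r) n, u n⟫_ℂ := by
    funext n
    rw [hwf n, wv_apply, RCLike.inner_apply]
    simp
  rw [hfun]
  exact hs

/-- The high frequency scales. -/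
lemma scale_high (h : FData F M) {δ : ℝ} (hδ : 0 < δ) (hδ1 : δ ≤ 1) {u : H} (hu : u ∈ NN h 0)
    (j : ℕ) (T : Finset ℤ) (c : ℤ → ℂ) :
    ‖∑ k ∈ T, (starRingEnd ℂ) (c k) * ⟪eL h ((j : ℤ), k), TT hδ hδ1 u⟫_ℂ‖ ≤
      ‖u‖ * (2 * δ * M * (2 : ℝ) ^ (-(j : ℝ) / 2) * √(∑ k ∈ T, ‖c k‖ ^ 2)) := by
  have hM := h.pos
  have hsδ : 0 < √δ := Real.sqrt_pos.2 hδ
  set y : ℝ := (2 : ℝ) ^ (-(j : ℤ)) with hy
  have hyv : y = 1 / 2 ^ j := by rw [hy, zpow_neg, zpow_natCast, one_div]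
  have hy0 : 0 < y := by positivity
  set a : ℝ := (2 : ℝ) ^ (-((j : ℤ) : ℝ) / 2) with ha
  have ha' : a = (2 : ℝ) ^ (-(j : ℝ) / 2) := by rw [ha, Int.cast_natCast]
  have ha0 : 0 < a := by positivity
  have hFc := h.diff.continuous
  have htc := tp_continuous T c
  have hs1 := hasSum_scale h hδ hδ1 u (j : ℤ) T c
  -- the vanishing sum
  have hs2 : HasSum (fun n : ℕ => u n * ((((√δ)⁻¹ : ℝ) : ℂ) * (starRingEnd ℂ)
        (∫ τ in (0 : ℝ)..δ, (a : ℂ) * (tp T c (y * (n + τ)) * F (y * n))))) 0 := by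
    have h1 : ∀ k ∈ T, HasSum (fun n : ℕ => ((((√δ)⁻¹ : ℝ) : ℂ) * (starRingEnd ℂ) (c k *
        ∫ τ in (0 : ℝ)..δ, ch k (y * τ))) * (u n * (starRingEnd ℂ) (wf F j k 0 n)))
        ((((√δ)⁻¹ : ℝ) : ℂ) * (starRingEnd ℂ) (c k * ∫ τ in (0 : ℝ)..δ, ch k (y * τ)) * 0) :=
      fun k _ => (hasSum_wf_zero h hu j k).mul_left _
    have h2 := hasSum_sum h1
    simp only [mul_zero, Finset.sum_const_zero] at h2
    convert h2 using 1
    funext n
    have h3 : ∀ τ : ℝ, (a : ℂ) * (tp T c (y * (n + τ)) * F (y * n)) =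
        ∑ k ∈ T, wf F j k 0 n * c k * ch k (y * τ) := by
      intro τ
      unfold tp wf
      rw [Finset.sum_mul, Finset.mul_sum]
      refine Finset.sum_congr rfl fun k _ => ?_
      have e1 : y * (n + τ) = ((n : ℤ) : ℝ) / 2 ^ j + y * τ := by
        rw [hyv, Int.cast_natCast]; ring
      have e2 : y * n = (((n : ℤ) : ℝ) + 0) / 2 ^ j := by
        rw [hyv, Int.cast_natCast]; ring
      rw [e1, e2, ch_add_right, ha']
      ring
    simp only [h3]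
    rw [intervalIntegral.integral_finsetSum]
    · simp only [intervalIntegral.integral_const_mul, map_sum, map_mul, Finset.mul_sum]
      refine Finset.sum_congr rfl fun k _ => ?_
      ring
    · intro k _
      exact (continuous_const.mul ((ch_continuous k).comp (by fun_prop))).intervalIntegrable _ _
  have hs3 := hs1.sub hs2
  rw [sub_zero] at hs3
  set sg : ℝ := ∑ k ∈ T, ‖c k‖ ^ 2 with hsg
  have hsg0 : 0 ≤ sg := Finset.sum_nonneg fun _ _ => sq_nonneg _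
  have hN : 1 ≤ 2 ^ j := Nat.one_le_two_pow
  set K : ℝ := a * (M * δ) * √((1 + 2 ^ j) * sg) with hK
  have hK0 : 0 ≤ K := by positivity
  set D : ℕ → ℂ := fun n => (((√δ)⁻¹ : ℝ) : ℂ) * (starRingEnd ℂ)
    (∫ τ in (0 : ℝ)..δ, (a : ℂ) * (tp T c (y * (n + τ)) * (F (y * (n + τ)) - F (y * n)))) with hD
  have hs4 : HasSum (fun n => u n * D n)
      (∑ k ∈ T, (starRingEnd ℂ) (c k) * ⟪eL h ((j : ℤ), k), TT hδ hδ1 u⟫_ℂ) := by
    have hfun : (fun n => u n * D n) = fun n : ℕ => u n * ((((√δ)⁻¹ : ℝ) : ℂ) * (starRingEnd ℂ)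
          (∫ τ in (0 : ℝ)..δ, (a : ℂ) * (tp T c (y * (n + τ)) * F (y * (n + τ))))) -
        u n * ((((√δ)⁻¹ : ℝ) : ℂ) * (starRingEnd ℂ)
          (∫ τ in (0 : ℝ)..δ, (a : ℂ) * (tp T c (y * (n + τ)) * F (y * n)))) := by
      funext n
      simp only [hD]
      rw [← mul_sub, ← mul_sub, ← map_sub, ← intervalIntegral.integral_sub]
      · congr 3
        refine intervalIntegral.integral_congr fun τ _ => ?_
        ring
      · exact (continuous_const.mul ((htc.comp (by fun_prop)).mul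
          (hFc.comp (by fun_prop)))).intervalIntegrable _ _
      · exact (continuous_const.mul ((htc.comp (by fun_prop)).mul
          continuous_const)).intervalIntegrable _ _
    rw [hfun]
    exact hs3
  have hbound : ∀ n, ‖D n‖ ≤ K / (((2 ^ j : ℕ) : ℝ) + n) := by
    intro n
    have hn : (0 : ℝ) ≤ n := Nat.cast_nonneg n
    simp only [hD]
    rw [norm_mul, Complex.norm_real, Real.norm_of_nonneg (by positivity), RCLike.norm_conj]
    have h1 : ‖∫ τ in (0 : ℝ)..δ, (a : ℂ) * (tp T c (y * (n + τ)) * (F (y * (n + τ)) - F (y * n)))‖ ≤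
        ∫ τ in (0 : ℝ)..δ, (a * (M * δ) / (2 ^ j + n)) * ‖tp T c (y * n + y * τ)‖ := by
      refine intervalIntegral.norm_integral_le_of_norm_le hδ.le ?_ ?_
      · refine Eventually.of_forall fun τ hτ => ?_
        have hlip := h.lip (a := y * n) (x := y * (n + τ)) (y := y * n) (by positivity)
          (by have := hτ.1; nlinarith) le_rfl
        rw [norm_mul, norm_mul, Complex.norm_real, Real.norm_of_nonneg ha0.le, mul_add y]
        have e1 : |y * n + y * τ - y * n| = y * τ := by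
          rw [add_sub_cancel_left, abs_of_nonneg]
          exact mul_nonneg hy0.le hτ.1.le
        rw [mul_add, e1] at hlip
        have e2 : M / (1 + y * n) * (y * τ) ≤ (M * δ) / (2 ^ j + n) := by
          have e3 : M / (1 + y * n) * (y * τ) = (M * τ) / (2 ^ j + n) := by
            rw [hyv]
            field_simp
          rw [e3]
          have := hτ.2
          gcongr
        calc a * (‖tp T c (y * n + y * τ)‖ * ‖F (y * n + y * τ) - F (y * n)‖)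
            ≤ a * (‖tp T c (y * n + y * τ)‖ * ((M * δ) / (2 ^ j + n))) := by
              gcongr
              exact hlip.trans e2
          _ = _ := by ring
      · exact (continuous_const.mul ((htc.comp (by fun_prop)).norm)).intervalIntegrable _ _
    rw [show (∫ τ in (0 : ℝ)..δ, (a * (M * δ) / (2 ^ j + n)) * ‖tp T c (y * n + y * τ)‖) =
      (a * (M * δ) / (2 ^ j + n)) * ∫ τ in (0 : ℝ)..δ, ‖tp T c (y * n + y * τ)‖ from
      intervalIntegral.integral_const_mul _ _] at h1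
    have h2 := integral_tp_le T c hy0 (y * n) hδ.le hδ1
    have h3 : (√δ)⁻¹ * √(δ * ((1 + 1 / y) * ∑ l ∈ T, ‖c l‖ ^ 2)) = √((1 + 2 ^ j) * sg) := by
      rw [Real.sqrt_mul hδ.le, ← mul_assoc, inv_mul_cancel₀ hsδ.ne', one_mul, hyv]
      simp [hsg]
    calc (√δ)⁻¹ * ‖∫ τ in (0 : ℝ)..δ, (a : ℂ) * (tp T c (y * (n + τ)) *
          (F (y * (n + τ)) - F (y * n)))‖
        ≤ (√δ)⁻¹ * ((a * (M * δ) / (2 ^ j + n)) *
          √(δ * ((1 + 1 / y) * ∑ l ∈ T, ‖c l‖ ^ 2))) := by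
          gcongr
          exact h1.trans (by gcongr)
      _ = (a * (M * δ) / (2 ^ j + n)) * ((√δ)⁻¹ *
          √(δ * ((1 + 1 / y) * ∑ l ∈ T, ‖c l‖ ^ 2))) := by ring
      _ = _ := by
          rw [h3, hK]
          push_cast
          ring
  refine (norm_le_of_hasSum hN hK0 hs4 fun n _ => hbound n).trans ?_
  have hfin : √((1 + 2 ^ j) * sg) * √(2 / ((2 ^ j : ℕ) : ℝ)) ≤ 2 * √sg := by
    rw [← Real.sqrt_mul (by positivity)]
    have : 2 * √sg = √(4 * sg) := by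
      rw [Real.sqrt_mul (by norm_num)]
      congr 1
      rw [show (4 : ℝ) = 2 ^ 2 by norm_num, Real.sqrt_sq (by norm_num)]
    rw [this]
    apply Real.sqrt_le_sqrt
    push_cast
    have h2j : (1 : ℝ) ≤ 2 ^ j := by exact_mod_cast hN
    have : (1 + (2 : ℝ) ^ j) * sg * (2 / 2 ^ j) = ((2 + 2 * 2 ^ j) / 2 ^ j) * sg := by
      ring
    rw [this]
    gcongr
    rw [div_le_iff₀ (by positivity)]
    linarith
  calc ‖u‖ * (K * √(2 / ((2 ^ j : ℕ) : ℝ)))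
      = ‖u‖ * (a * (M * δ) * (√((1 + 2 ^ j) * sg) * √(2 / ((2 ^ j : ℕ) : ℝ)))) := by
        rw [hK]; ring
    _ ≤ ‖u‖ * (a * (M * δ) * (2 * √sg)) := by gcongr
    _ = _ := by rw [ha']; ring

/-- The low frequency scales. -/
lemma scale_low (h : FData F M) {δ : ℝ} (hδ : 0 < δ) (hδ1 : δ ≤ 1) {u : H} {R : ℕ} (hR1 : 1 ≤ R)
    (hu0 : ∀ n < R, u n = 0) (m : ℕ) (T : Finset ℤ) (c : ℤ → ℂ) :
    ‖∑ k ∈ T, (starRingEnd ℂ) (c k) * ⟪eL h (-(m : ℤ), k), TT hδ hδ1 u⟫_ℂ‖ ≤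
      ‖u‖ * (4 * M / √R * (2 : ℝ) ^ (-(m : ℝ) / 2) * √(∑ k ∈ T, ‖c k‖ ^ 2)) := by
  have hM := h.pos
  have hsδ : 0 < √δ := Real.sqrt_pos.2 hδ
  have hRpos : (1 : ℝ) ≤ R := by exact_mod_cast hR1
  have hs1 := hasSum_scale h hδ hδ1 u (-(m : ℤ)) T c
  set y : ℝ := (2 : ℝ) ^ (-(-(m : ℤ))) with hy
  have hyv : y = 2 ^ m := by rw [hy, neg_neg, zpow_natCast]
  have hy1 : 1 ≤ y := by rw [hyv]; exact one_le_pow₀ (by norm_num)
  have hy0 : 0 < y := by positivity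
  set a : ℝ := (2 : ℝ) ^ (-((-(m : ℤ) : ℤ) : ℝ) / 2) with ha
  have ha0 : 0 < a := by positivity
  have hay : a / y = (2 : ℝ) ^ (-(m : ℝ) / 2) := by
    rw [hyv, ha, div_eq_iff (by positivity), ← Real.rpow_natCast, ← Real.rpow_add (by norm_num)]
    congr 1
    push_cast
    ring
  have hFc := h.diff.continuous
  have htc := tp_continuous T c
  set sg : ℝ := ∑ k ∈ T, ‖c k‖ ^ 2 with hsg
  have hsg0 : 0 ≤ sg := Finset.sum_nonneg fun _ _ => sq_nonneg _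
  set K : ℝ := a / y * (2 * M) * √(2 * sg) with hK
  have hK0 : 0 ≤ K := by positivity
  have hbound : ∀ n : ℕ, u n ≠ 0 → ‖(((√δ)⁻¹ : ℝ) : ℂ) * (starRingEnd ℂ)
        (∫ τ in (0 : ℝ)..δ, (a : ℂ) * (tp T c (y * (n + τ)) * F (y * (n + τ))))‖ ≤
        K / ((R : ℝ) + n) := by
    intro n hn0
    have hRn : R ≤ n := by
      by_contra hlt
      exact hn0 (hu0 n (by omega))
    have hRn' : (R : ℝ) ≤ n := by exact_mod_cast hRn
    have hn : (0 : ℝ) < n := by linarith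
    rw [norm_mul, Complex.norm_real, Real.norm_of_nonneg (by positivity), RCLike.norm_conj]
    have h1 : ‖∫ τ in (0 : ℝ)..δ, (a : ℂ) * (tp T c (y * (n + τ)) * F (y * (n + τ)))‖ ≤
        ∫ τ in (0 : ℝ)..δ, (a / y * (2 * M) / (R + n)) * ‖tp T c (y * n + y * τ)‖ := by
      refine intervalIntegral.norm_integral_le_of_norm_le hδ.le ?_ ?_
      · refine Eventually.of_forall fun τ hτ => ?_
        have hτ0 := hτ.1
        have hdec := h.decay (y * n + y * τ)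
        rw [norm_mul, norm_mul, Complex.norm_real, Real.norm_of_nonneg ha0.le, mul_add y]
        have e2 : M / (1 + |y * n + y * τ|) ≤ 1 / y * (2 * M) / (R + n) := by
          rw [abs_of_nonneg (by positivity), one_div_mul_eq_div, div_div,
            div_le_div_iff₀ (by positivity) (by positivity)]
          have h5 : y * (R + n) ≤ 2 * (1 + (y * n + y * τ)) := by
            have h6 : y * (R : ℝ) ≤ y * n := by gcongr
            have h7 : 0 ≤ y * τ := by positivity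
            nlinarith
          nlinarith
        calc a * (‖tp T c (y * n + y * τ)‖ * ‖F (y * n + y * τ)‖)
            ≤ a * (‖tp T c (y * n + y * τ)‖ * (1 / y * (2 * M) / (R + n))) := by
              gcongr
              exact hdec.trans e2
          _ = _ := by ring
      · exact (continuous_const.mul ((htc.comp (by fun_prop)).norm)).intervalIntegrable _ _
    rw [show (∫ τ in (0 : ℝ)..δ, (a / y * (2 * M) / (R + n)) * ‖tp T c (y * n + y * τ)‖) =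
      (a / y * (2 * M) / (R + n)) * ∫ τ in (0 : ℝ)..δ, ‖tp T c (y * n + y * τ)‖ from
      intervalIntegral.integral_const_mul _ _] at h1
    have h2 := integral_tp_le T c hy0 (y * n) hδ.le hδ1
    have h3 : (√δ)⁻¹ * √(δ * ((1 + 1 / y) * ∑ l ∈ T, ‖c l‖ ^ 2)) ≤ √(2 * sg) := by
      rw [Real.sqrt_mul hδ.le, ← mul_assoc, inv_mul_cancel₀ hsδ.ne', one_mul]
      apply Real.sqrt_le_sqrt
      gcongr
      have : 1 / y ≤ 1 := by rw [div_le_one hy0]; exact hy1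
      linarith
    calc (√δ)⁻¹ * ‖∫ τ in (0 : ℝ)..δ, (a : ℂ) * (tp T c (y * (n + τ)) * F (y * (n + τ)))‖
        ≤ (√δ)⁻¹ * ((a / y * (2 * M) / (R + n)) *
          √(δ * ((1 + 1 / y) * ∑ l ∈ T, ‖c l‖ ^ 2))) := by
          gcongr
          exact h1.trans (by gcongr)
      _ = (a / y * (2 * M) / (R + n)) * ((√δ)⁻¹ *
          √(δ * ((1 + 1 / y) * ∑ l ∈ T, ‖c l‖ ^ 2))) := by ring
      _ ≤ (a / y * (2 * M) / (R + n)) * √(2 * sg) := by gcongr
      _ = _ := by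
          rw [hK]
          ring
  refine (norm_le_of_hasSum hR1 hK0 hs1 hbound).trans (le_of_eq ?_)
  have hfin : √(2 * sg) * √(2 / (R : ℝ)) = 2 * √sg / √R := by
    rw [Real.sqrt_mul (by norm_num), Real.sqrt_div (by norm_num)]
    have h2 : √2 * √2 = (2 : ℝ) := Real.mul_self_sqrt (by norm_num)
    calc √2 * √sg * (√2 / √R) = (√2 * √2) * √sg / √R := by ring
      _ = _ := by rw [h2]
  calc ‖u‖ * (K * √(2 / (R : ℝ)))
      = ‖u‖ * (a / y * (2 * M) * (√(2 * sg) * √(2 / (R : ℝ)))) := by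
        rw [hK]; ring
    _ = _ := by rw [hfin, hay]; ring

/-- Both cases. -/
lemma scale_bound (h : FData F M) {δ : ℝ} (hδ : 0 < δ) (hδ1 : δ ≤ 1) {u : H} (hu : u ∈ NN h 0)
    {R : ℕ} (hR1 : 1 ≤ R) (hu0 : ∀ n < R, u n = 0) (j : ℤ) (T : Finset ℤ) (c : ℤ → ℂ) :
    ‖∑ k ∈ T, (starRingEnd ℂ) (c k) * ⟪eL h (j, k), TT hδ hδ1 u⟫_ℂ‖ ≤
      ‖u‖ * ((2 * δ * M + 4 * M / √R) * ((2 : ℝ) ^ (-|(j : ℝ)| / 2) *
        √(∑ k ∈ T, ‖c k‖ ^ 2))) := by
  have hM := h.pos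
  obtain ⟨m, rfl | rfl⟩ := Int.eq_nat_or_neg j
  · refine (scale_high h hδ hδ1 hu m T c).trans ?_
    rw [Int.cast_natCast, abs_of_nonneg (by positivity)]
    rw [mul_assoc (2 * δ * M)]
    gcongr
    have : 0 ≤ 4 * M / √R := by positivity
    linarith
  · refine (scale_low h hδ hδ1 hR1 hu0 m T c).trans ?_
    rw [Int.cast_neg, Int.cast_natCast, abs_neg, abs_of_nonneg (by positivity)]
    rw [mul_assoc (4 * M / √R)]
    gcongr
    have : 0 ≤ 2 * δ * M := by positivity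
    linarith

end

end Pool.Agent.Lib.MP_53e230_an
end

section

set_option autoImplicit false

/-!
Completeness of the wavelet system forces `N(0)` to be finite dimensional, and the final
contradiction.
-/

namespace Pool.Agent.Lib.MP_53e230_an

open MeasureTheory Filter Topology Set
open scoped FourierTransform SchwartzMap NNReal InnerProductSpace

lemma sum_two_pow_abs_le (S : Finset ℤ) :
    ∑ j ∈ S, ((2 : ℝ) ^ (-|(j : ℝ)| / 2)) ^ 2 ≤ 4 := by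
  classical
  have h1 : ∀ j : ℤ, ((2 : ℝ) ^ (-|(j : ℝ)| / 2)) ^ 2 = (1 / 2) ^ j.natAbs := by
    intro j
    have : |(j : ℝ)| = ((j.natAbs : ℕ) : ℝ) := by
      rw [Nat.cast_natAbs, Int.cast_abs]
    rw [this, sq_two_rpow_neg_half, one_div_pow]
  simp only [h1]
  set N : ℕ := S.sup Int.natAbs + 1 with hN
  set A1 : Finset ℤ := (Finset.range N).image fun n : ℕ => (n : ℤ) with hA1
  set A2 : Finset ℤ := (Finset.range N).image fun n : ℕ => -(n : ℤ) with hA2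
  have hsub : S ⊆ A1 ∪ A2 := by
    intro j hj
    have hlt : j.natAbs < N := Nat.lt_succ_of_le (Finset.le_sup (f := Int.natAbs) hj)
    rw [Finset.mem_union, hA1, hA2, Finset.mem_image, Finset.mem_image]
    obtain ⟨m, rfl | rfl⟩ := Int.eq_nat_or_neg j
    · left
      exact ⟨m, by simpa using hlt, rfl⟩
    · right
      exact ⟨m, by simpa using hlt, rfl⟩
  have hgeo : ∑ n ∈ Finset.range N, (1 / 2 : ℝ) ^ n ≤ 2 :=
    calc ∑ n ∈ Finset.range N, (1 / 2 : ℝ) ^ n ≤ ∑' n : ℕ, (1 / 2 : ℝ) ^ n :=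
          (summable_geometric_two).sum_le_tsum _ fun _ _ => by positivity
      _ = 2 := tsum_geometric_two
  have e1 : ∑ j ∈ A1, (1 / 2 : ℝ) ^ j.natAbs = ∑ n ∈ Finset.range N, (1 / 2 : ℝ) ^ n := by
    rw [hA1, Finset.sum_image (by intro a _ b _ hab; simpa using hab)]
    simp
  have e2 : ∑ j ∈ A2, (1 / 2 : ℝ) ^ j.natAbs = ∑ n ∈ Finset.range N, (1 / 2 : ℝ) ^ n := by
    rw [hA2, Finset.sum_image (by intro a _ b _ hab; simpa using hab)]
    simp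
  calc ∑ j ∈ S, (1 / 2 : ℝ) ^ j.natAbs ≤ ∑ j ∈ A1 ∪ A2, (1 / 2 : ℝ) ^ j.natAbs :=
        Finset.sum_le_sum_of_subset_of_nonneg hsub fun _ _ _ => by positivity
    _ ≤ ∑ j ∈ A1 ∪ A2, (1 / 2 : ℝ) ^ j.natAbs + ∑ j ∈ A1 ∩ A2, (1 / 2 : ℝ) ^ j.natAbs := by
        have : 0 ≤ ∑ j ∈ A1 ∩ A2, (1 / 2 : ℝ) ^ j.natAbs :=
          Finset.sum_nonneg fun _ _ => by positivity
        linarith
    _ = ∑ j ∈ A1, (1 / 2 : ℝ) ^ j.natAbs + ∑ j ∈ A2, (1 / 2 : ℝ) ^ j.natAbs :=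
        Finset.sum_union_inter
    _ ≤ 4 := by rw [e1, e2]; linarith

lemma norm_sq_L2R (w : L2R) : ‖w‖ ^ 2 = ∫ x : ℝ, ‖w x‖ ^ 2 := by
  have h1 : ⟪w, w⟫_ℂ = ∫ x : ℝ, ⟪w x, w x⟫_ℂ := L2.inner_def w w
  have h2 : ∀ x : ℝ, ⟪w x, w x⟫_ℂ = ((‖w x‖ ^ 2 : ℝ) : ℂ) := by
    intro x
    rw [inner_self_eq_norm_sq_to_K]
    norm_cast
  simp only [h2] at h1
  rw [inner_self_eq_norm_sq_to_K, integral_complex_ofReal] at h1
  have h3 : ((‖w‖ ^ 2 : ℝ) : ℂ) = ((∫ x : ℝ, ‖w x‖ ^ 2 : ℝ) : ℂ) := by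
    rw [← h1]
    push_cast
    rfl
  exact Complex.ofReal_injective h3

section

variable {F : ℝ → ℂ} {M : ℝ}

lemma lower_eL (h : FData F M) {A : ℝ}
    (hR : ∀ c : ℤ × ℤ →₀ ℂ, A * c.sum (fun _ a => ‖a‖ ^ 2) ≤
      ∫ ξ : ℝ, ‖c.sum (fun p a => a * eF F p.1 p.2 ξ)‖ ^ 2) (c : ℤ × ℤ →₀ ℂ) :
    A * ∑ p ∈ c.support, ‖c p‖ ^ 2 ≤ ‖∑ p ∈ c.support, c p • eL h p‖ ^ 2 := by
  refine (hR c).trans (le_of_eq ?_)
  rw [norm_sq_L2R]
  refine integral_congr_ae ?_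
  have h1 : ∀ᵐ ξ : ℝ, ∀ p ∈ c.support, (c p • eL h p) ξ = c p * eF F p.1 p.2 ξ := by
    rw [Filter.eventually_all_finset]
    intro p _
    filter_upwards [Lp.coeFn_smul (c p) (eL h p), (eF_memLp h p.1 p.2).coeFn_toLp] with ξ h2 h3
    rw [h2, Pi.smul_apply, smul_eq_mul]
    unfold eL
    rw [h3]
  filter_upwards [Lp.coeFn_finsetSum c.support (fun p => c p • eL h p), h1] with ξ h2 h3
  rw [h2, Finset.sum_apply]
  unfold Finsupp.sum
  rw [Finset.sum_congr rfl h3]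

/-- The closed span of the system. -/
noncomputable def WW (h : FData F M) : Submodule ℂ L2R := Submodule.span ℂ (Set.range (eL h))

lemma orth_zero (h : FData F M)
    (hC : ∀ g : ℝ → ℂ, MemLp g 2 volume → (∀ ξ : ℝ, ξ ≤ 0 → g ξ = 0) →
      (∀ p : ℤ × ℤ, ∫ ξ : ℝ, (starRingEnd ℂ) (eF F p.1 p.2 ξ) * g ξ = 0) → g =ᵐ[volume] 0)
    {g : L2R} (hg : g ∈ (WW h)ᗮ) : ∀ᵐ ξ : ℝ, 0 < ξ → g ξ = 0 := by
  have h1 := hC (indicator (Ioi 0) g) ((Lp.memLp g).indicator measurableSet_Ioi) ?_ ?_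
  · filter_upwards [h1] with ξ h2 h3
    rw [indicator_of_mem (by exact h3)] at h2
    exact h2
  · intro ξ hξ
    exact indicator_of_notMem (by simpa using hξ) _
  · intro p
    have h2 : ⟪eL h p, g⟫_ℂ = 0 :=
      (Submodule.mem_orthogonal _ _).1 hg _ (Submodule.subset_span ⟨p, rfl⟩)
    rw [L2.inner_def] at h2
    rw [← h2]
    refine integral_congr_ae ?_
    filter_upwards [(eF_memLp h p.1 p.2).coeFn_toLp] with ξ h3
    rw [RCLike.inner_apply]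
    unfold eL
    rw [h3, mul_comm (g ξ)]
    by_cases hξ : ξ ∈ Ioi (0 : ℝ)
    · rw [indicator_of_mem hξ]
    · rw [indicator_of_notMem hξ]
      have : F ((2 : ℝ) ^ (-p.1) * ξ) = 0 := h.zero _
        (mul_nonpos_of_nonneg_of_nonpos (by positivity) (by simpa using hξ))
      unfold eF
      rw [this]
      simp

lemma TT_mem_closure (h : FData F M)
    (hC : ∀ g : ℝ → ℂ, MemLp g 2 volume → (∀ ξ : ℝ, ξ ≤ 0 → g ξ = 0) →
      (∀ p : ℤ × ℤ, ∫ ξ : ℝ, (starRingEnd ℂ) (eF F p.1 p.2 ξ) * g ξ = 0) → g =ᵐ[volume] 0)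
    {δ : ℝ} (hδ : 0 < δ) (hδ1 : δ ≤ 1) (u : H) : TT hδ hδ1 u ∈ (WW h).topologicalClosure := by
  rw [← Submodule.orthogonal_orthogonal_eq_closure, Submodule.mem_orthogonal]
  intro g hg
  have h1 := orth_zero h hC hg
  have h2 : ∀ n, ⟪g, vn δ n⟫_ℂ = 0 := by
    intro n
    unfold vn
    rw [inner_smul_right, ← inner_conj_symm, L2.inner_indicatorConstLp_one]
    have h3 : ∫ x in Ioc (n : ℝ) (n + δ), g x = 0 := by
      refine setIntegral_eq_zero_of_ae_eq_zero ?_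
      filter_upwards [h1] with x h4 h5
      exact h4 (lt_of_le_of_lt (Nat.cast_nonneg n) h5.1)
    rw [h3]
    simp
  have h3 := hasSum_inner_TT hδ hδ1 u g
  simp only [h2, mul_zero] at h3
  exact h3.unique hasSum_zero

lemma abs_inner_le (h : FData F M) {A : ℝ} (hA : 0 < A)
    (hR : ∀ c : ℤ × ℤ →₀ ℂ, A * c.sum (fun _ a => ‖a‖ ^ 2) ≤
      ∫ ξ : ℝ, ‖c.sum (fun p a => a * eF F p.1 p.2 ξ)‖ ^ 2)
    {δ : ℝ} (hδ : 0 < δ) (hδ1 : δ ≤ 1) {u : H} (hu : u ∈ NN h 0)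
    {R : ℕ} (hR1 : 1 ≤ R) (hu0 : ∀ n < R, u n = 0) {w : L2R} (hw : w ∈ WW h) :
    ‖⟪w, TT hδ hδ1 u⟫_ℂ‖ ≤ (2 * (2 * δ * M + 4 * M / √R) / √A) * ‖TT hδ hδ1 u‖ * ‖w‖ := by
  classical
  have hsA : 0 < √A := Real.sqrt_pos.2 hA
  have hM := h.pos
  unfold WW at hw
  rw [Finsupp.mem_span_range_iff_exists_finsupp] at hw
  obtain ⟨c, rfl⟩ := hw
  have hlow := lower_eL h hR c
  unfold Finsupp.sum
  set S : Finset ℤ := c.support.image Prod.fst with hS
  set T : Finset ℤ := c.support.image Prod.snd with hT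
  have hsub : c.support ⊆ S ×ˢ T := by
    intro p hp
    rw [Finset.mem_product]
    exact ⟨Finset.mem_image_of_mem _ hp, Finset.mem_image_of_mem _ hp⟩
  have e1 : ⟪∑ p ∈ c.support, c p • eL h p, TT hδ hδ1 u⟫_ℂ =
      ∑ j ∈ S, ∑ k ∈ T, (starRingEnd ℂ) (c (j, k)) * ⟪eL h (j, k), TT hδ hδ1 u⟫_ℂ := by
    rw [sum_inner, ← Finset.sum_product' (f := fun j k => (starRingEnd ℂ) (c (j, k)) *
      ⟪eL h (j, k), TT hδ hδ1 u⟫_ℂ)]
    simp only [inner_smul_left]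
    refine Finset.sum_subset hsub fun p _ hp => ?_
    rw [Finsupp.notMem_support_iff.1 hp]
    simp
  have e2 : ∑ j ∈ S, ∑ k ∈ T, ‖c (j, k)‖ ^ 2 = ∑ p ∈ c.support, ‖c p‖ ^ 2 := by
    rw [← Finset.sum_product' (f := fun j k => ‖c (j, k)‖ ^ 2)]
    symm
    refine Finset.sum_subset hsub fun p _ hp => ?_
    rw [Finsupp.notMem_support_iff.1 hp]
    simp
  set q : ℝ := 2 * δ * M + 4 * M / √R with hq
  have hq0 : 0 ≤ q := by positivity
  have h3 : √(∑ p ∈ c.support, ‖c p‖ ^ 2) ≤ ‖∑ p ∈ c.support, c p • eL h p‖ / √A := by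
    rw [le_div_iff₀ hsA, ← Real.sqrt_mul (Finset.sum_nonneg fun _ _ => sq_nonneg _), mul_comm]
    exact Real.sqrt_le_iff.2 ⟨norm_nonneg _, hlow⟩
  rw [e1]
  calc ‖∑ j ∈ S, ∑ k ∈ T, (starRingEnd ℂ) (c (j, k)) * ⟪eL h (j, k), TT hδ hδ1 u⟫_ℂ‖
      ≤ ∑ j ∈ S, ‖u‖ * (q * ((2 : ℝ) ^ (-|(j : ℝ)| / 2) * √(∑ k ∈ T, ‖c (j, k)‖ ^ 2))) :=
        (norm_sum_le _ _).trans (Finset.sum_le_sum fun j _ =>
          scale_bound h hδ hδ1 hu hR1 hu0 j T fun k => c (j, k))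
    _ = ‖u‖ * (q * ∑ j ∈ S, (2 : ℝ) ^ (-|(j : ℝ)| / 2) * √(∑ k ∈ T, ‖c (j, k)‖ ^ 2)) := by
        rw [Finset.mul_sum, Finset.mul_sum]
    _ ≤ ‖u‖ * (q * (√(∑ j ∈ S, ((2 : ℝ) ^ (-|(j : ℝ)| / 2)) ^ 2) *
          √(∑ j ∈ S, (√(∑ k ∈ T, ‖c (j, k)‖ ^ 2)) ^ 2))) := by
        gcongr
        exact Real.sum_mul_le_sqrt_mul_sqrt _ _ _
    _ ≤ ‖u‖ * (q * (2 * √(∑ p ∈ c.support, ‖c p‖ ^ 2))) := by
        have e3 : ∑ j ∈ S, (√(∑ k ∈ T, ‖c (j, k)‖ ^ 2)) ^ 2 = ∑ p ∈ c.support, ‖c p‖ ^ 2 := by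
          rw [← e2]
          refine Finset.sum_congr rfl fun j _ => ?_
          exact Real.sq_sqrt (Finset.sum_nonneg fun _ _ => sq_nonneg _)
        rw [e3]
        gcongr
        apply Real.sqrt_le_iff.2
        refine ⟨by norm_num, ?_⟩
        have := sum_two_pow_abs_le S
        linarith
    _ ≤ ‖u‖ * (q * (2 * (‖∑ p ∈ c.support, c p • eL h p‖ / √A))) := by gcongr
    _ = _ := by
        rw [(TT hδ hδ1).norm_map]
        ring

/-- Only finitely many dimensions are missing. -/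
lemma exists_R (h : FData F M) {A : ℝ} (hA : 0 < A)
    (hR : ∀ c : ℤ × ℤ →₀ ℂ, A * c.sum (fun _ a => ‖a‖ ^ 2) ≤
      ∫ ξ : ℝ, ‖c.sum (fun p a => a * eF F p.1 p.2 ξ)‖ ^ 2)
    (hC : ∀ g : ℝ → ℂ, MemLp g 2 volume → (∀ ξ : ℝ, ξ ≤ 0 → g ξ = 0) →
      (∀ p : ℤ × ℤ, ∫ ξ : ℝ, (starRingEnd ℂ) (eF F p.1 p.2 ξ) * g ξ = 0) → g =ᵐ[volume] 0) :
    ∃ R : ℕ, ∀ u ∈ NN h 0, (∀ n < R, u n = 0) → u = 0 := by
  have hsA : 0 < √A := Real.sqrt_pos.2 hA
  have hM := h.pos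
  obtain ⟨δ, hδ, hδ1, hδ2⟩ : ∃ δ : ℝ, 0 < δ ∧ δ ≤ 1 ∧ 4 * δ * M < √A / 2 := by
    refine ⟨min 1 (√A / (16 * M)), by positivity, min_le_left _ _, ?_⟩
    have h1 : min 1 (√A / (16 * M)) ≤ √A / (16 * M) := min_le_right _ _
    have h2 : 4 * min 1 (√A / (16 * M)) * M ≤ 4 * (√A / (16 * M)) * M := by gcongr
    have h3 : 4 * (√A / (16 * M)) * M = √A / 4 := by field_simp; norm_num
    linarith
  obtain ⟨R, hR1⟩ := exists_nat_gt (max 1 ((16 * M / √A) ^ 2))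
  have hR2 : (1 : ℝ) < R := lt_of_le_of_lt (le_max_left _ _) hR1
  have hR3 : (16 * M / √A) ^ 2 < R := lt_of_le_of_lt (le_max_right _ _) hR1
  have hR4 : 16 * M / √A < √R := Real.lt_sqrt_of_sq_lt hR3
  have hR5 : 8 * M / √R < √A / 2 := by
    have hsR : 0 < √(R : ℝ) := Real.sqrt_pos.2 (by linarith)
    rw [div_lt_iff₀ hsR]
    rw [div_lt_iff₀ hsA] at hR4
    linarith
  have hR6 : 1 ≤ R := by
    have : (1 : ℝ) ≤ R := hR2.le
    exact_mod_cast this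
  refine ⟨R, fun u hu hu0 => ?_⟩
  have hθ : 2 * (2 * δ * M + 4 * M / √R) / √A < 1 := by
    rw [div_lt_one hsA]
    have : 2 * (2 * δ * M + 4 * M / √R) = 4 * δ * M + 8 * M / √R := by ring
    linarith
  have h0 := eq_zero_of_closure (WW h) (TT_mem_closure h hC hδ hδ1 u) hθ
    fun w hw => abs_inner_le h hA hR hδ hδ1 hu hR6 hu0 hw
  exact (map_eq_zero_iff _ (TT hδ hδ1).injective).1 h0

lemma finite_NN (h : FData F M) {A : ℝ} (hA : 0 < A)
    (hR : ∀ c : ℤ × ℤ →₀ ℂ, A * c.sum (fun _ a => ‖a‖ ^ 2) ≤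
      ∫ ξ : ℝ, ‖c.sum (fun p a => a * eF F p.1 p.2 ξ)‖ ^ 2)
    (hC : ∀ g : ℝ → ℂ, MemLp g 2 volume → (∀ ξ : ℝ, ξ ≤ 0 → g ξ = 0) →
      (∀ p : ℤ × ℤ, ∫ ξ : ℝ, (starRingEnd ℂ) (eF F p.1 p.2 ξ) * g ξ = 0) → g =ᵐ[volume] 0) :
    FiniteDimensional ℂ (NN h 0) := by
  obtain ⟨R, hR'⟩ := exists_R h hA hR hC
  let ev : NN h 0 →ₗ[ℂ] (Fin R → ℂ) :=
    { toFun := fun u n => (u : H) (n : ℕ)
      map_add' := fun u v => by ext n; simp
      map_smul' := fun a u => by ext n; simp }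
  refine Module.Finite.of_injective ev ?_
  rw [← LinearMap.ker_eq_bot, LinearMap.ker_eq_bot']
  intro u hu
  apply Subtype.ext
  refine hR' u u.2 fun n hn => ?_
  exact congrFun hu ⟨n, hn⟩

/-- The shift `N(1) → N(0)`. -/
noncomputable def shiftH (u : H) : H :=
  ⟨fun n : ℕ => Nat.casesOn n 0 fun k => u k, by
    refine memℓp_gen ?_
    have h2 : (2 : ENNReal).toReal = ((2 : ℕ) : ℝ) := by norm_num
    simp only [h2, Real.rpow_natCast]
    rw [← summable_nat_add_iff 1]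
    exact summable_norm_sq u⟩

lemma shiftH_zero (u : H) : shiftH u 0 = 0 := rfl

lemma shiftH_succ (u : H) (n : ℕ) : shiftH u (n + 1) = u n := rfl

lemma shiftH_mem (h : FData F M) {u : H} (hu : u ∈ NN h 1) : shiftH u ∈ NN h 0 := by
  unfold NN
  rw [Submodule.mem_orthogonal]
  intro w hw
  unfold EE at hw
  induction hw using Submodule.span_induction with
  | mem x hx =>
    obtain ⟨⟨j, r⟩, rfl⟩ := hx
    have hmem : wv h 1 j (r : ℕ) ∈ EE h 1 := Submodule.subset_span ⟨⟨j, r⟩, rfl⟩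
    have hin : ⟪wv h 1 j (r : ℕ), u⟫_ℂ = 0 := (Submodule.mem_orthogonal _ _).1 hu _ hmem
    have hs := lp.hasSum_inner (𝕜 := ℂ) (wv h 1 j (r : ℕ)) u
    rw [hin] at hs
    have hs2 := hs.mul_left ((starRingEnd ℂ) (ch (r : ℕ) (1 / 2 ^ j)))
    rw [mul_zero] at hs2
    have hs3 : HasSum (fun n => ⟪(wv h 0 j (r : ℕ)) n, (shiftH u) n⟫_ℂ) 0 := by
      rw [← hasSum_nat_add_iff' 1]
      simp only [Finset.range_one, Finset.sum_singleton, shiftH_zero, inner_zero_right, sub_zero]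
      have hfun : (fun n => ⟪(wv h 0 j (r : ℕ)) (n + 1), (shiftH u) (n + 1)⟫_ℂ) =
          fun n => (starRingEnd ℂ) (ch (r : ℕ) (1 / 2 ^ j)) * ⟪(wv h 1 j (r : ℕ)) n, u n⟫_ℂ := by
        funext n
        rw [shiftH_succ, wv_apply, wv_apply, RCLike.inner_apply, RCLike.inner_apply]
        have e1 : wf F j (r : ℕ) ((0 : ℝ≥0) : ℝ) ((n + 1 : ℕ) : ℤ) =
            ch (r : ℕ) (1 / 2 ^ j) * wf F j (r : ℕ) ((1 : ℝ≥0) : ℝ) (n : ℤ) := by
          unfold wf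
          have e2 : ((((n + 1 : ℕ) : ℤ) : ℝ)) / 2 ^ j = 1 / 2 ^ j + ((n : ℤ) : ℝ) / 2 ^ j := by
            push_cast; ring
          have e3 : ((((n + 1 : ℕ) : ℤ) : ℝ) + ((0 : ℝ≥0) : ℝ)) / 2 ^ j =
              (((n : ℤ) : ℝ) + ((1 : ℝ≥0) : ℝ)) / 2 ^ j := by
            push_cast; ring
          rw [e3, e2, ch_add_right]
          ring
        rw [e1, map_mul]
        ring
      rw [hfun]
      exact hs2
    exact (lp.hasSum_inner (𝕜 := ℂ) (wv h 0 j (r : ℕ)) (shiftH u)).unique hs3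
  | zero => exact inner_zero_left _
  | add x y _ _ hx hy => rw [inner_add_left, hx, hy, add_zero]
  | smul a x _ hx => rw [inner_smul_left, hx, mul_zero]

/-- The vector `e₀`. -/
noncomputable def e0 : H := lp.single 2 0 (1 : ℂ)

lemma e0_zero : e0 0 = 1 := by simp [e0]

lemma e0_mem (h : FData F M) : e0 ∈ NN h 0 := by
  unfold NN
  rw [Submodule.mem_orthogonal]
  intro w hw
  unfold EE at hw
  induction hw using Submodule.span_induction with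
  | mem x hx =>
    obtain ⟨⟨j, r⟩, rfl⟩ := hx
    unfold e0
    rw [lp.inner_single_right, wv_apply]
    have : wf F j (r : ℕ) ((0 : ℝ≥0) : ℝ) ((0 : ℕ) : ℤ) = 0 := by
      unfold wf
      rw [h.zero (((((0 : ℕ) : ℤ) : ℝ) + ((0 : ℝ≥0) : ℝ)) / 2 ^ j) (by simp)]
      simp
    rw [this, inner_zero_left]
  | zero => exact inner_zero_left _
  | add x y _ _ hx hy => rw [inner_add_left, hx, hy, add_zero]
  | smul a x _ hx => rw [inner_smul_left, hx, mul_zero]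

/-- The contradiction. -/
theorem no_riesz (h : FData F M) {A : ℝ} (hA : 0 < A)
    (hR : ∀ c : ℤ × ℤ →₀ ℂ, A * c.sum (fun _ a => ‖a‖ ^ 2) ≤
      ∫ ξ : ℝ, ‖c.sum (fun p a => a * eF F p.1 p.2 ξ)‖ ^ 2)
    (hC : ∀ g : ℝ → ℂ, MemLp g 2 volume → (∀ ξ : ℝ, ξ ≤ 0 → g ξ = 0) →
      (∀ p : ℤ × ℤ, ∫ ξ : ℝ, (starRingEnd ℂ) (eF F p.1 p.2 ξ) * g ξ = 0) → g =ᵐ[volume] 0) :
    False := by
  have hfin := finite_NN h hA hR hC
  obtain ⟨φ, hφ⟩ := exists_injective_zero_one h hA hR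
  let sh : NN h 1 →ₗ[ℂ] NN h 0 :=
    { toFun := fun u => ⟨shiftH u, shiftH_mem h u.2⟩
      map_add' := fun u v => by
        apply Subtype.ext
        apply lp.ext
        funext n
        cases n with
        | zero => simp [shiftH_zero]
        | succ n => simp [shiftH_succ]
      map_smul' := fun a u => by
        apply Subtype.ext
        apply lp.ext
        funext n
        cases n with
        | zero => simp [shiftH_zero]
        | succ n => simp [shiftH_succ] }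
  have hsh : Function.Injective sh := by
    intro u v huv
    apply Subtype.ext
    apply lp.ext
    funext n
    have h1 := congrArg (fun x : NN h 0 => (x : H) (n + 1)) huv
    exact h1
  have hinj : Function.Injective (sh ∘ₗ φ) := hsh.comp hφ
  have hsurj := LinearMap.injective_iff_surjective.1 hinj
  obtain ⟨v, hv⟩ := hsurj ⟨e0, e0_mem h⟩
  have h1 := congrArg (fun x : NN h 0 => (x : H) 0) hv
  have h2 : (0 : ℂ) = 1 := h1.trans e0_zero
  exact zero_ne_one h2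

end

end Pool.Agent.Lib.MP_53e230_an
end
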